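import Pool.Agent.Q161.ESB.FinB

/-! # Project ESB: the ranks over all elementary abelian 2-extensions -/

set_option autoImplicit false

namespace Pool.Agent.Q161.ESB

open NumberField IsDedekindDomain Finset

open scoped Classical

open Pool.Agent.Q161.ESN.Quad (rankOver)

section main

variable (hCNT : S_CNT) (hFAM : S_FAM) (hKUM : S_KUM) (hISO : S_ISO) (hDSC : S_DSC) (hEXT : S_EXT)
  (hLOWB : S_LOWB) (hDUP : S_DUP)

include hCNT hFAM hKUM hISO hDSC hEXT hLOWB hDUP in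
theorem main (F : Type) [Field F] [NumberField F] (m : ℕ) (hm : 1 ≤ m) (r : ℕ) (a b : Fin r → F)
    (h : ∀ i, ∀ x : F, x ^ 3 + a i * x + b i ≠ 0) (k : ℕ) :
    ∃ C : ℝ, 0 < C ∧ ∀ (X : ℝ) (n : ℕ) (K : Fin n → Type) [∀ i, Field (K i)]
      [∀ i, NumberField (K i)] [∀ i, Algebra F (K i)], 1 ≤ X →
      (Elementary F m X K →
        (∑ i, (2 : ℝ) ^ (k * rankOver a b (K i)) ≤ C * X * (1 + Real.log X) ^ (2 ^ m - 2)) ∧
        (∑ i, (rankOver a b (K i) : ℝ) ^ k ≤ C * X * (1 + Real.log X) ^ (2 ^ m - 2)) ∧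
        ∀ t : ℕ, ((univ.filter (fun i => t ≤ rankOver a b (K i))).card : ℝ) ≤
          C * X * (1 + Real.log X) ^ (2 ^ m - 2) / 2 ^ (k * t)) ∧
      (AllElementary F m X K → (∑ i, (2 : ℝ) ^ (k * rankOver a b (K i)) ≤ C * n) ∧
        (∑ i, (rankOver a b (K i) : ℝ) ^ k ≤ C * n) ∧
        ∀ t : ℕ, ((univ.filter (fun i => t ≤ rankOver a b (K i))).card : ℝ) ≤ C * n / 2 ^ (k * t)) := by
  obtain ⟨C, hC, hcore⟩ := core hCNT hFAM hKUM hISO F m hm r a b h k
  obtain ⟨C0, hC0, hnum⟩ := number hDSC hCNT hFAM hKUM hISO hEXT hLOWB hDUP F m hm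
  set E := 2 ^ m - 2 with hE
  have hlC0 : 0 ≤ Real.log C0 := Real.log_nonneg hC0
  set C' : ℝ := C * (C0 * (1 + Real.log C0) ^ E) with hC'
  have hCC : C ≤ C' := by
    refine le_mul_of_one_le_right hC.le ?_
    have h1 : (1 : ℝ) ≤ (1 + Real.log C0) ^ E := one_le_pow₀ (by linarith)
    nlinarith
  have hC'0 : 0 < C' := lt_of_lt_of_le hC hCC
  -- the three conclusions follow from the first one
  have tail : ∀ (n : ℕ) (R : Fin n → ℕ) (Y : ℝ), ∑ i, (2 : ℝ) ^ (k * R i) ≤ Y →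
      (∑ i, (2 : ℝ) ^ (k * R i) ≤ Y) ∧ (∑ i, (R i : ℝ) ^ k ≤ Y) ∧
      ∀ t : ℕ, ((univ.filter (fun i => t ≤ R i)).card : ℝ) ≤ Y / 2 ^ (k * t) := by
    intro n R Y h1
    refine ⟨h1, (sum_le_sum fun i _ => ?_).trans h1, fun t => ?_⟩
    · rw [mul_comm k, pow_mul]
      refine pow_le_pow_left₀ (Nat.cast_nonneg _) ?_ k
      exact_mod_cast (Nat.lt_two_pow_self (n := R i)).le
    · rw [le_div_iff₀ (by positivity)]
      refine le_trans ?_ h1
      calc ((univ.filter (fun i => t ≤ R i)).card : ℝ) * 2 ^ (k * t) =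
            ∑ i ∈ univ.filter (fun i => t ≤ R i), (2 : ℝ) ^ (k * t) := by
            rw [sum_const, nsmul_eq_mul]
        _ ≤ ∑ i ∈ univ.filter (fun i => t ≤ R i), (2 : ℝ) ^ (k * R i) :=
            sum_le_sum fun i hi => pow_le_pow_right₀ one_le_two
              (Nat.mul_le_mul_left k (mem_filter.1 hi).2)
        _ ≤ _ := sum_le_sum_of_subset_of_nonneg (filter_subset _ _) fun i _ _ => by positivity
  refine ⟨C', hC'0, fun X n K _ _ _ hX => ?_⟩
  have hlX : 0 ≤ Real.log X := Real.log_nonneg hX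
  have key : Elementary F m X K →
      ∑ i, (2 : ℝ) ^ (k * rankOver a b (K i)) ≤ C * X * (1 + Real.log X) ^ E := fun hK =>
    hcore X hX n K hK.el hK.dist fun i c hc => supLe hDSC hm (hK.el i) hc hX (hK.disc i)
  refine ⟨fun hK => tail n _ _ ((key hK).trans (by gcongr)), fun hK => tail n _ _ ?_⟩
  have h1 := key hK.toElementary
  rcases Nat.eq_zero_or_pos n with hn | hn
  · subst hn
    simp
  · have hn' : (1 : ℝ) ≤ n := by exact_mod_cast hn
    refine h1.trans ?_
    rw [hC', mul_assoc, mul_assoc]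
    refine mul_le_mul_of_nonneg_left ?_ hC.le
    rcases le_total C0 X with h2 | h2
    · have h3 := ((hnum X hX).2 n K hK).1 h2
      rw [div_le_iff₀ (by positivity)] at h3
      calc X * (1 + Real.log X) ^ E ≤ n * C0 := h3
        _ = C0 * 1 * n := by ring
        _ ≤ C0 * (1 + Real.log C0) ^ E * n := by
            have h4 : (1 : ℝ) ≤ (1 + Real.log C0) ^ E := one_le_pow₀ (by linarith)
            gcongr
    · have h3 : Real.log X ≤ Real.log C0 := Real.log_le_log (by linarith) h2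
      calc X * (1 + Real.log X) ^ E ≤ C0 * (1 + Real.log C0) ^ E := by gcongr
        _ ≤ C0 * (1 + Real.log C0) ^ E * n := le_mul_of_one_le_right (by positivity) hn'

end main

end Pool.Agent.Q161.ESB
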