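import Pool.Agent.Q161.ESB.AllW
import Pool.Agent.Q161.ESB.FinC
import Pool.Agent.Q164.ESB.LCUB
import Pool.Agent.Q151.ESB.Idl
import Pool.Agent.Q150.ESB.Kum
import Pool.Agent.Q211.ESB.Iso
import Pool.Agent.Q211.ESB.Dsc

/-! # Project ESB: assembly

Written by helper161 with helpers 26, 68, 79, 121, 149, 150, 151, 164, 210, 211, 214, 285, 299, on top of the earlier
projects EA, ESM, ESG, ESF, ESN. -/

set_option autoImplicit false

namespace Pool.Agent.Q161.ESB

theorem t_lcub : S_LCUB := Pool.Agent.Q164.ESB.lcub Pool.Agent.Q129.ESM.lcu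
theorem t_cnf : S_CNF := t_cnf' t_lcub
theorem t_sys : S_SYS := t_sys' t_lcub
theorem t_mn : S_MN := t_mn' t_lcub
theorem t_cnt : S_CNT := t_cnt' t_lcub
theorem t_idl : S_IDL := Pool.Agent.Q151.ESB.idl
theorem t_kum : S_KUM := Pool.Agent.Q150.ESB.kum
theorem t_iso : S_ISO := Pool.Agent.Q211.ESB.iso
theorem t_dsc : S_DSC := Pool.Agent.Q211.ESB.dsc

end Pool.Agent.Q161.ESB
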