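import Pool.Agent.Q161.ESB.Stm4
import Pool.Agent.Q161.ESM.Stm3
import Pool.Agent.Q237.ESN.REP

/-! # Project ESB, job CLS: the number of the classes with a given odd support -/

set_option autoImplicit false

namespace Pool.Agent.Q161.ESB

open NumberField IsDedekindDomain Finset
open Pool.Agent.Q51.EL (Par)

theorem cls (hSUF : Pool.Agent.Q161.ESM.S_SUF) : S_CLS := by
  intro F _ _
  classical
  obtain ⟨Q, hQ0, hQ⟩ := hSUF F 1 one_ne_zero
  refine ⟨Q.card, fun A 𝒟 h𝒟 hns => ?_⟩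
  rcases 𝒟.eq_empty_or_nonempty with h0 | ⟨D0, hD0⟩
  · rw [h0]
    simp
  have h1 : ∀ D : F, ∃ a : F, D ∈ 𝒟 → a ∈ Q ∧ ∃ q : F, q ≠ 0 ∧ D0 * D = a * q ^ 2 := by
    intro D
    by_cases hD : D ∈ 𝒟
    · obtain ⟨a, ha, q, hq, he⟩ := hQ (D0 * D) (mul_ne_zero (h𝒟 D0 hD0).1 (h𝒟 D hD).1) (by
        intro v _
        by_cases hv : v ∈ A
        · obtain ⟨k, hk⟩ := ((h𝒟 D0 hD0).2 v).2 hv
          obtain ⟨k', hk'⟩ := ((h𝒟 D hD).2 v).2 hv
          refine ⟨1 + k + k', ?_⟩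
          rw [map_mul, hk, hk', ← WithZero.exp_add]
          congr 1
          ring
        · obtain ⟨k, hk⟩ := Pool.Agent.Q237.ESN.par_zero (h𝒟 D0 hD0).1
            (fun h => hv (((h𝒟 D0 hD0).2 v).1 h))
          obtain ⟨k', hk'⟩ := Pool.Agent.Q237.ESN.par_zero (h𝒟 D hD).1
            (fun h => hv (((h𝒟 D hD).2 v).1 h))
          refine ⟨k + k', ?_⟩
          rw [map_mul, hk, hk', ← WithZero.exp_add]
          congr 1
          ring)
      exact ⟨a, fun _ => ⟨ha, q, hq, he⟩⟩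
    · exact ⟨0, fun h => absurd h hD⟩
  choose f hf using h1
  refine card_le_card_of_injOn f (fun D hD => (hf D hD).1) fun D hD D' hD' hff => ?_
  by_contra hne
  apply hns D hD D' hD' hne
  obtain ⟨q, hq, he⟩ := (hf D hD).2
  obtain ⟨q', hq', he'⟩ := (hf D' hD').2
  rw [hff] at he
  have h0 := (h𝒟 D0 hD0).1
  refine ⟨f D' * q * q' / D0, ?_⟩
  field_simp
  calc D * D' * D0 ^ 2 = (D0 * D) * (D0 * D') := by ring
    _ = (f D' * q ^ 2) * (f D' * q' ^ 2) := by rw [he, he']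
    _ = _ := by ring

end Pool.Agent.Q161.ESB
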