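import Pool.Agent.Q161.ESB.FinB
import Pool.Agent.Q161.ESM.Cor

/-! # Project ESB: the conclusions for the families of elementary abelian 2-extensions -/

set_option autoImplicit false

namespace Pool.Agent.Q161.ESB

open NumberField IsDedekindDomain Finset

open scoped Classical

/-- the moments, the tail and the mean of `R` over sparse families -/
theorem tails (k n : ℕ) (R : Fin n → ℕ) (Y : ℝ) (h1 : ∑ i, (2 : ℝ) ^ (k * R i) ≤ Y) :
    (∑ i, (2 : ℝ) ^ (k * R i) ≤ Y) ∧ (∑ i, (R i : ℝ) ^ k ≤ Y) ∧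
      (∀ t : ℕ, ((univ.filter (fun i => t ≤ R i)).card : ℝ) ≤ Y / 2 ^ (k * t)) ∧
      (0 < n → k * ∑ i, (R i : ℝ) ≤ n * Real.logb 2 (Y / n)) := by
  refine ⟨h1, (sum_le_sum fun i _ => ?_).trans h1, fun t => ?_, fun hn => ?_⟩
  · rw [mul_comm k, pow_mul]
    refine pow_le_pow_left₀ (Nat.cast_nonneg _) ?_ k
    exact_mod_cast (Nat.lt_two_pow_self (n := R i)).le
  · rw [le_div_iff₀ (by positivity)]
    refine le_trans ?_ h1
    calc ((univ.filter (fun i => t ≤ R i)).card : ℝ) * 2 ^ (k * t) =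
          ∑ i ∈ univ.filter (fun i => t ≤ R i), (2 : ℝ) ^ (k * t) := by
          rw [sum_const, nsmul_eq_mul]
      _ ≤ ∑ i ∈ univ.filter (fun i => t ≤ R i), (2 : ℝ) ^ (k * R i) :=
          sum_le_sum fun i hi => pow_le_pow_right₀ one_le_two
            (Nat.mul_le_mul_left k (mem_filter.1 hi).2)
      _ ≤ _ := sum_le_sum_of_subset_of_nonneg (filter_subset _ _) fun i _ _ => by positivity
  · have hn' : (0 : ℝ) < n := by exact_mod_cast hn
    have hne : (univ : Finset (Fin n)).Nonempty := ⟨⟨0, hn⟩, mem_univ _⟩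
    have h4 := Pool.Agent.Q161.ESM.geom univ hne (fun i => (2 : ℝ) ^ (k * R i)) (fun i _ => by positivity) h1
    rw [card_univ, Fintype.card_fin] at h4
    have h5 : ∏ i, (2 : ℝ) ^ (k * R i) = (2 : ℝ) ^ ((k : ℝ) * ∑ i, (R i : ℝ)) := by
      rw [prod_pow_eq_pow_sum, ← Real.rpow_natCast]
      congr 1
      push_cast
      rw [mul_sum]
    rw [h5] at h4
    have h6 := Real.logb_le_logb_of_le one_lt_two (Real.rpow_pos_of_pos two_pos _) h4
    rw [Real.logb_rpow two_pos (by norm_num), Real.logb_pow] at h6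
    exact h6

variable (hCNT : S_CNT) (hFAM : S_FAM) (hKUM : S_KUM) (hISO : S_ISO) (hDSC : S_DSC) (hEXT : S_EXT)
  (hLOWB : S_LOWB) (hDUP : S_DUP)

include hCNT hFAM hKUM hISO hDSC hEXT hLOWB hDUP in
/-- from the bound for the sum to all conclusions -/
theorem gen (F : Type) [Field F] [NumberField F] (m : ℕ) (hm : 1 ≤ m)
    (R : (K : Type) → [Field K] → [NumberField K] → [Algebra F K] → ℕ) (k : ℕ)
    (hcore : ∃ C : ℝ, 0 < C ∧ ∀ X : ℝ, 1 ≤ X → ∀ (n : ℕ) (K : Fin n → Type) [∀ i, Field (K i)]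
      [∀ i, NumberField (K i)] [∀ i, Algebra F (K i)], (∀ i, El F (K i) m) →
      (∀ i j, i ≠ j → IsEmpty (K i ≃ₐ[F] K j)) →
      (∀ i (b : Fin m → F), Bas (K i) b → SupLe b X) →
      ∑ i, (2 : ℝ) ^ (k * R (K i)) ≤ C * X * (1 + Real.log X) ^ (2 ^ m - 2)) :
    ∃ C : ℝ, 0 < C ∧ ∀ (X : ℝ) (n : ℕ) (K : Fin n → Type) [∀ i, Field (K i)]
      [∀ i, NumberField (K i)] [∀ i, Algebra F (K i)], 1 ≤ X →
      (Elementary F m X K →
        (∑ i, (2 : ℝ) ^ (k * R (K i)) ≤ C * X * (1 + Real.log X) ^ (2 ^ m - 2)) ∧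
        (∑ i, (R (K i) : ℝ) ^ k ≤ C * X * (1 + Real.log X) ^ (2 ^ m - 2)) ∧
        (∀ t : ℕ, ((univ.filter (fun i => t ≤ R (K i))).card : ℝ) ≤
          C * X * (1 + Real.log X) ^ (2 ^ m - 2) / 2 ^ (k * t)) ∧
        (0 < n → k * ∑ i, (R (K i) : ℝ) ≤
          n * Real.logb 2 (C * X * (1 + Real.log X) ^ (2 ^ m - 2) / n))) ∧
      (AllElementary F m X K → (∑ i, (2 : ℝ) ^ (k * R (K i)) ≤ C * n) ∧
        (∑ i, (R (K i) : ℝ) ^ k ≤ C * n) ∧
        ∀ t : ℕ, ((univ.filter (fun i => t ≤ R (K i))).card : ℝ) ≤ C * n / 2 ^ (k * t)) := by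
  obtain ⟨C, hC, hcore⟩ := hcore
  obtain ⟨C0, hC0, hnum⟩ := number hDSC hCNT hFAM hKUM hISO hEXT hLOWB hDUP F m hm
  set E := 2 ^ m - 2 with hE
  have hlC0 : 0 ≤ Real.log C0 := Real.log_nonneg hC0
  set C' : ℝ := C * (C0 * (1 + Real.log C0) ^ E) with hC'
  have hCC : C ≤ C' := by
    refine le_mul_of_one_le_right hC.le ?_
    have h1 : (1 : ℝ) ≤ (1 + Real.log C0) ^ E := one_le_pow₀ (by linarith)
    nlinarith
  have hC'0 : 0 < C' := lt_of_lt_of_le hC hCC
  refine ⟨C', hC'0, fun X n K _ _ _ hX => ?_⟩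
  have hlX : 0 ≤ Real.log X := Real.log_nonneg hX
  have key : Elementary F m X K →
      ∑ i, (2 : ℝ) ^ (k * R (K i)) ≤ C * X * (1 + Real.log X) ^ E := fun hK =>
    hcore X hX n K hK.el hK.dist fun i c hc => supLe hDSC hm (hK.el i) hc hX (hK.disc i)
  refine ⟨fun hK => tails k n _ _ ((key hK).trans (by gcongr)), fun hK => ?_⟩
  have h0 : ∑ i, (2 : ℝ) ^ (k * R (K i)) ≤ C' * n := by
    have h1 := key hK.toElementary
    rcases Nat.eq_zero_or_pos n with hn | hn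
    · subst hn
      simp
    · have hn' : (1 : ℝ) ≤ n := by exact_mod_cast hn
      refine h1.trans ?_
      rw [hC', mul_assoc, mul_assoc]
      refine mul_le_mul_of_nonneg_left ?_ hC.le
      rcases le_total C0 X with h2 | h2
      · have h3 := ((hnum X hX).2 n K hK).1 h2
        rw [div_le_iff₀ (by positivity)] at h3
        calc X * (1 + Real.log X) ^ E ≤ n * C0 := h3
          _ = C0 * 1 * n := by ring
          _ ≤ C0 * (1 + Real.log C0) ^ E * n := by
              have h4 : (1 : ℝ) ≤ (1 + Real.log C0) ^ E := one_le_pow₀ (by linarith)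
              gcongr
      · have h3 : Real.log X ≤ Real.log C0 := Real.log_le_log (by linarith) h2
        calc X * (1 + Real.log X) ^ E ≤ C0 * (1 + Real.log C0) ^ E := by gcongr
          _ ≤ C0 * (1 + Real.log C0) ^ E * n := le_mul_of_one_le_right (by positivity) hn'
  obtain ⟨a1, a2, a3, -⟩ := tails k n _ _ h0
  exact ⟨a1, a2, a3⟩

end Pool.Agent.Q161.ESB
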