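import Pool.Agent.Q161.ESB.Cor
import Pool.Agent.Q161.ESN.Fin

/-! # Project ESB: the conclusions for the weighted moments over all quadratic twists -/

set_option autoImplicit false

namespace Pool.Agent.Q161.ESB

open NumberField IsDedekindDomain Finset

open scoped Classical

open Pool.Agent.Q161.ESN (AllTwists sq_trans t_family)

/-- JOB LOWW. Many twists, counted with the weights `N^(wt D)`. -/
def S_LOWW : Prop := ∀ (F : Type) [Field F] [NumberField F] (N : ℕ), 1 ≤ N → ∃ c X0 : ℝ, 0 < c ∧ 1 ≤ X0 ∧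
  ∀ X : ℝ, X0 ≤ X → ∃ 𝒟 : Finset F, Twists X 𝒟 ∧
    c * X * (1 + Real.log X) ^ (N - 1) ≤ ∑ D ∈ 𝒟, (N : ℝ) ^ wt D

section mass

variable {F : Type} [Field F] [NumberField F]

/-- the number of the elements of `𝒟`, `D` counted with the weight `M^(wt D)` -/
noncomputable def mass (M : ℕ) (𝒟 : Finset F) : ℝ := ∑ D ∈ 𝒟, (M : ℝ) ^ wt D

theorem wt_sq {D D' : F} (hD : D ≠ 0) (hD' : D' ≠ 0) (h : IsSquare (D * D')) : wt D' = wt D := by
  obtain ⟨q, hq⟩ := h
  have hq0 : q ≠ 0 := by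
    rintro rfl
    rw [mul_zero] at hq
    exact (mul_ne_zero hD hD') hq
  have e : D' = D * (q / D) ^ 2 := by
    field_simp
    linear_combination hq
  rw [e, wt_mul_sq (div_ne_zero hq0 hD)]

theorem mass_nonneg (M : ℕ) (𝒟 : Finset F) : 0 ≤ mass M 𝒟 :=
  sum_nonneg fun _ _ => by positivity

theorem card_le_mass {M : ℕ} (hM : 1 ≤ M) (𝒟 : Finset F) : (𝒟.card : ℝ) ≤ mass M 𝒟 := by
  rw [mass, card_eq_sum_ones, Nat.cast_sum]
  refine sum_le_sum fun D _ => ?_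
  rw [Nat.cast_one]
  exact one_le_pow₀ (by exact_mod_cast hM)

theorem mass_pos {M : ℕ} (hM : 1 ≤ M) {𝒟 : Finset F} (h : 𝒟.Nonempty) : 0 < mass M 𝒟 :=
  lt_of_lt_of_le (by exact_mod_cast h.card_pos) (card_le_mass hM 𝒟)

/-- every set of representatives has at most the mass of a complete one -/
theorem mass_le {M : ℕ} {X : ℝ} {𝒟 S : Finset F} (h𝒟 : AllTwists X 𝒟) (hS : Twists X S) :
    mass M S ≤ mass M 𝒟 := by
  have h1 : ∀ D : F, ∃ D' : F, D ∈ S → D' ∈ 𝒟 ∧ IsSquare (D * D') := fun D => by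
    by_cases hD : D ∈ S
    · obtain ⟨D', hD', hsq⟩ := h𝒟.all D (hS.ne D hD) (hS.norm D hD)
      exact ⟨D', fun _ => ⟨hD', hsq⟩⟩
    · exact ⟨0, fun h => absurd h hD⟩
  choose f hf using h1
  have hinj : Set.InjOn f (S : Set F) := fun D hD D' hD' hff => by
    by_contra hne
    apply hS.dist D hD D' hD' hne
    have h2 := (hf D hD).2
    have h3 := (hf D' hD').2
    rw [hff] at h2
    refine sq_trans (h𝒟.ne _ (hf D' hD').1) h2 ?_
    rwa [mul_comm]
  calc mass M S = ∑ D ∈ S, (M : ℝ) ^ wt (f D) := sum_congr rfl fun D hD => by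
        rw [wt_sq (hS.ne D hD) (h𝒟.ne _ (hf D hD).1) (hf D hD).2]
    _ = ∑ D ∈ S.image f, (M : ℝ) ^ wt D := (sum_image (f := fun D => (M : ℝ) ^ wt D) hinj).symm
    _ ≤ mass M 𝒟 := sum_le_sum_of_subset_of_nonneg (fun D hD => by
        obtain ⟨D', hD', rfl⟩ := mem_image.1 hD
        exact (hf D' hD').1) fun _ _ _ => by positivity

theorem mass_filter_le {M : ℕ} {𝒟 : Finset F} (p : F → Prop) : mass M (𝒟.filter p) ≤ mass M 𝒟 :=
  sum_le_sum_of_subset_of_nonneg (filter_subset _ _) fun _ _ _ => by positivity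

/-- the weighted mean of the logarithm -/
theorem geomW {M : ℕ} (hM : 1 ≤ M) {𝒟 : Finset F} (h : 𝒟.Nonempty) (R : F → ℕ) (k : ℕ) {B : ℝ}
    (hB : ∑ D ∈ 𝒟, (M : ℝ) ^ wt D * (2 : ℝ) ^ (k * R D) ≤ B) :
    k * ∑ D ∈ 𝒟, (M : ℝ) ^ wt D * R D ≤ mass M 𝒟 * Real.logb 2 (B / mass M 𝒟) := by
  have hW := mass_pos hM h
  have h1 := Real.geom_mean_le_arith_mean_weighted 𝒟 (fun D => (M : ℝ) ^ wt D / mass M 𝒟)
    (fun D => (2 : ℝ) ^ (k * R D)) (fun D _ => by positivity) (by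
      rw [← sum_div]
      exact div_self (ne_of_gt hW)) (fun D _ => by positivity)
  have h2 : ∏ D ∈ 𝒟, ((2 : ℝ) ^ (k * R D)) ^ ((M : ℝ) ^ wt D / mass M 𝒟) =
      (2 : ℝ) ^ ((k : ℝ) * (∑ D ∈ 𝒟, (M : ℝ) ^ wt D * R D) / mass M 𝒟) := by
    rw [mul_sum, sum_div, Real.rpow_sum_of_pos two_pos]
    refine prod_congr rfl fun D _ => ?_
    rw [← Real.rpow_natCast, ← Real.rpow_mul zero_le_two]
    congr 1
    push_cast
    ring
  have h3 : ∑ D ∈ 𝒟, (M : ℝ) ^ wt D / mass M 𝒟 * (2 : ℝ) ^ (k * R D) ≤ B / mass M 𝒟 := by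
    calc ∑ D ∈ 𝒟, (M : ℝ) ^ wt D / mass M 𝒟 * (2 : ℝ) ^ (k * R D) =
          (∑ D ∈ 𝒟, (M : ℝ) ^ wt D * (2 : ℝ) ^ (k * R D)) / mass M 𝒟 := by
          rw [sum_div]
          exact sum_congr rfl fun D _ => by ring
      _ ≤ _ := div_le_div_of_nonneg_right hB hW.le
  rw [h2] at h1
  have h4 := Real.logb_le_logb_of_le one_lt_two (Real.rpow_pos_of_pos two_pos _) (h1.trans h3)
  rw [Real.logb_rpow two_pos (by norm_num), div_le_iff₀ hW] at h4
  linarith

end mass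

/-- the masses of the complete sets of representatives -/
theorem massFam (hCNT : S_CNT) (hLOWW : S_LOWW) (F : Type) [Field F] [NumberField F] (M : ℕ)
    (hM : 1 ≤ M) : ∃ C : ℝ, 1 ≤ C ∧ ∀ X : ℝ, 1 ≤ X → ∀ 𝒟 : Finset F, AllTwists X 𝒟 →
      X * (1 + Real.log X) ^ (M - 1) / C ≤ mass M 𝒟 ∧
        mass M 𝒟 ≤ C * X * (1 + Real.log X) ^ (M - 1) := by
  obtain ⟨C1, hC1, h1⟩ := wtd_one hCNT F M hM
  obtain ⟨c, X0, hc, hX0, h2⟩ := hLOWW F M hM
  obtain ⟨C3, hC3, h3⟩ := t_family F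
  have hl0 : 0 ≤ Real.log X0 := Real.log_nonneg hX0
  set C : ℝ := max (max 1 C1) (max (1 / c) (C3 * (1 + Real.log X0) ^ (M - 1))) with hC
  have hCa : 1 ≤ C := (le_max_left _ _).trans (le_max_left _ _)
  have hCb : C1 ≤ C := (le_max_right _ _).trans (le_max_left _ _)
  have hCc : 1 / c ≤ C := (le_max_left _ _).trans (le_max_right _ _)
  have hCd : C3 * (1 + Real.log X0) ^ (M - 1) ≤ C := (le_max_right _ _).trans (le_max_right _ _)
  refine ⟨C, hCa, fun X hX 𝒟 h𝒟 => ⟨?_, ?_⟩⟩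
  · have hlX : 0 ≤ Real.log X := Real.log_nonneg hX
    rw [div_le_iff₀ (by linarith)]
    rcases le_total X0 X with h4 | h4
    · obtain ⟨S, hS, h5⟩ := h2 X h4
      have h6 := h5.trans (mass_le (M := M) h𝒟 hS)
      have h7 : X * (1 + Real.log X) ^ (M - 1) ≤ mass M 𝒟 * (1 / c) := by
        rw [mul_one_div, le_div_iff₀ hc]
        linarith
      exact h7.trans (mul_le_mul_of_nonneg_left hCc (mass_nonneg _ _))
    · have h5 := ((h3 X hX).2 𝒟 h𝒟).1
      have h6 : X ≤ mass M 𝒟 * C3 := by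
        rw [div_le_iff₀ hC3] at h5
        exact h5.trans (mul_le_mul_of_nonneg_right (card_le_mass hM 𝒟) hC3.le)
      have h7 : (1 + Real.log X) ^ (M - 1) ≤ (1 + Real.log X0) ^ (M - 1) :=
        pow_le_pow_left₀ (by linarith) (by
          have := Real.log_le_log (by linarith) h4
          linarith) _
      calc X * (1 + Real.log X) ^ (M - 1) ≤ mass M 𝒟 * C3 * (1 + Real.log X0) ^ (M - 1) :=
            mul_le_mul h6 h7 (by positivity) (by positivity [mass_nonneg M 𝒟])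
        _ = mass M 𝒟 * (C3 * (1 + Real.log X0) ^ (M - 1)) := by ring
        _ ≤ _ := mul_le_mul_of_nonneg_left hCd (mass_nonneg _ _)
  · have hlX : 0 ≤ Real.log X := Real.log_nonneg hX
    have h4 := h1 X hX 𝒟 h𝒟.toTwists
    simp only [mul_one] at h4
    refine h4.trans ?_
    gcongr

/-- bounds for all weighted exponential moments -/
def Mom {F : Type} [Field F] [NumberField F] (R : F → ℕ) : Prop :=
  ∀ M : ℕ, 1 ≤ M → ∀ k : ℕ, ∃ C : ℝ, 0 < C ∧ ∀ X : ℝ, 1 ≤ X → ∀ 𝒟 : Finset F, Twists X 𝒟 →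
    ∑ D ∈ 𝒟, (M : ℝ) ^ wt D * (2 : ℝ) ^ (k * R D) ≤ C * X * (1 + Real.log X) ^ (M - 1)

section concl

variable {F : Type} [Field F] [NumberField F] {R : F → ℕ}

omit [Field F] [NumberField F] in
theorem pow_rank_le (k : ℕ) (D : F) : (R D : ℝ) ^ k ≤ (2 : ℝ) ^ (k * R D) := by
  rw [mul_comm k, pow_mul]
  refine pow_le_pow_left₀ (Nat.cast_nonneg _) ?_ k
  exact_mod_cast (Nat.lt_two_pow_self (n := R D)).le

/-- the tail from the moment -/
theorem tailW {M k : ℕ} {𝒟 : Finset F} {B : ℝ}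
    (hB : ∑ D ∈ 𝒟, (M : ℝ) ^ wt D * (2 : ℝ) ^ (k * R D) ≤ B) (n : ℕ) :
    mass M (𝒟.filter (fun D => n ≤ R D)) ≤ B / 2 ^ (k * n) := by
  rw [le_div_iff₀ (by positivity)]
  refine le_trans ?_ hB
  rw [mass, sum_mul]
  calc ∑ D ∈ 𝒟.filter (fun D => n ≤ R D), (M : ℝ) ^ wt D * 2 ^ (k * n) ≤
        ∑ D ∈ 𝒟.filter (fun D => n ≤ R D), (M : ℝ) ^ wt D * 2 ^ (k * R D) :=
        sum_le_sum fun D hD => mul_le_mul_of_nonneg_left (pow_le_pow_right₀ one_le_two
          (Nat.mul_le_mul_left k (mem_filter.1 hD).2)) (by positivity)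
    _ ≤ _ := sum_le_sum_of_subset_of_nonneg (filter_subset _ _) fun _ _ _ => by positivity

theorem loglog_pos {X : ℝ} (hX : 3 ≤ X) : 0 < Real.log (Real.log X) := by
  have h1 : 1 < Real.log X := by
    rw [Real.lt_log_iff_exp_lt (by linarith)]
    exact lt_of_lt_of_le Real.exp_one_lt_three hX
  exact Real.log_pos h1

theorem one_add_log_le {X : ℝ} (hX : 3 ≤ X) : 1 + Real.log X ≤ 2 * Real.log X := by
  have h1 : 1 < Real.log X := by
    rw [Real.lt_log_iff_exp_lt (by linarith)]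
    exact lt_of_lt_of_le Real.exp_one_lt_three hX
  linarith

theorem pow_log_le {X : ℝ} (hX : 3 ≤ X) (n : ℕ) :
    (1 + Real.log X) ^ n ≤ 2 ^ n * Real.log X ^ (n : ℝ) := by
  have hl : 0 ≤ Real.log X := Real.log_nonneg (by linarith)
  rw [Real.rpow_natCast, ← mul_pow]
  exact pow_le_pow_left₀ (by linarith) (one_add_log_le hX) n

/-- the twists with many primes -/
theorem lamW (hR : Mom R) {M : ℕ} (hM : 1 ≤ M) (k : ℕ) : ∃ C : ℝ, 0 < C ∧ ∀ X : ℝ, 3 ≤ X →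
    ∀ 𝒟 : Finset F, Twists X 𝒟 → ∀ t : ℝ,
      ∑ D ∈ 𝒟.filter (fun D => t * Real.log (Real.log X) ≤ wt D), (2 : ℝ) ^ (k * R D) ≤
        C * X * Real.log X ^ ((M : ℝ) - 1 - t * Real.log M) := by
  obtain ⟨C, hC, h⟩ := hR M hM k
  refine ⟨C * 2 ^ (M - 1), by positivity, fun X hX 𝒟 h𝒟 t => ?_⟩
  have hX0 : 0 < X := by linarith
  have hl : 0 < Real.log X := Real.log_pos (by linarith)
  have hM0 : (0 : ℝ) < M := by exact_mod_cast hM
  have h1 := h X (by linarith) 𝒟 h𝒟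
  have h2 : (∑ D ∈ 𝒟.filter (fun D => t * Real.log (Real.log X) ≤ wt D), (2 : ℝ) ^ (k * R D)) *
      Real.log X ^ (t * Real.log M) ≤ C * X * (1 + Real.log X) ^ (M - 1) := by
    refine le_trans ?_ h1
    rw [sum_mul]
    calc ∑ D ∈ 𝒟.filter (fun D => t * Real.log (Real.log X) ≤ wt D),
          (2 : ℝ) ^ (k * R D) * Real.log X ^ (t * Real.log M) ≤
          ∑ D ∈ 𝒟.filter (fun D => t * Real.log (Real.log X) ≤ wt D),
            (M : ℝ) ^ wt D * (2 : ℝ) ^ (k * R D) := sum_le_sum fun D hD => by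
          rw [mul_comm]
          refine mul_le_mul_of_nonneg_right ?_ (by positivity)
          rw [← Real.rpow_natCast, Real.rpow_def_of_pos hl, Real.rpow_def_of_pos hM0,
            Real.exp_le_exp]
          have h3 := (mem_filter.1 hD).2
          have h4 : 0 ≤ Real.log M := Real.log_nonneg (by exact_mod_cast hM)
          calc Real.log (Real.log X) * (t * Real.log M) = Real.log M * (t * Real.log (Real.log X)) := by
                ring
            _ ≤ Real.log M * wt D := mul_le_mul_of_nonneg_left h3 h4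
      _ ≤ _ := sum_le_sum_of_subset_of_nonneg (filter_subset _ _) fun _ _ _ => by positivity
  have h5 : C * X * (1 + Real.log X) ^ (M - 1) ≤
      C * 2 ^ (M - 1) * X * Real.log X ^ ((M : ℝ) - 1) := by
    have h6 := pow_log_le hX (M - 1)
    rw [Nat.cast_sub hM, Nat.cast_one] at h6
    calc C * X * (1 + Real.log X) ^ (M - 1) ≤ C * X * (2 ^ (M - 1) * Real.log X ^ ((M : ℝ) - 1)) :=
          mul_le_mul_of_nonneg_left h6 (by positivity)
      _ = _ := by ring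
  rw [Real.rpow_sub hl, mul_div_assoc', le_div_iff₀ (Real.rpow_pos_of_pos hl _)]
  exact h2.trans h5

theorem manyW (hR : Mom R) {M : ℕ} (hM : 1 ≤ M) (A ε : ℝ) (hε : 0 < ε) :
    ∃ C : ℝ, 0 < C ∧ ∀ X : ℝ, 3 ≤ X → ∀ 𝒟 : Finset F, Twists X 𝒟 →
      mass M (𝒟.filter (fun D => ε * Real.log (Real.log X) < R D)) ≤ C * X / Real.log X ^ A := by
  obtain ⟨k, hk⟩ := exists_nat_ge ((A + (M - 1)) / (ε * Real.log 2))
  obtain ⟨C, hC, hmain⟩ := hR M hM k
  have hl2 : 0 < Real.log 2 := Real.log_pos one_lt_two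
  refine ⟨C * 2 ^ (M - 1), by positivity, fun X hX 𝒟 h𝒟 => ?_⟩
  have hX0 : 0 < X := by linarith
  have hll := loglog_pos hX
  have hl : 0 < Real.log X := Real.log_pos (by linarith)
  have h1 := tailW (hmain X (by linarith) 𝒟 h𝒟) (⌊ε * Real.log (Real.log X)⌋₊ + 1)
  have h2 : mass M (𝒟.filter (fun D => ε * Real.log (Real.log X) < R D)) ≤
      mass M (𝒟.filter (fun D => ⌊ε * Real.log (Real.log X)⌋₊ + 1 ≤ R D)) := by
    refine sum_le_sum_of_subset_of_nonneg (fun D hD => ?_) fun _ _ _ => by positivity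
    rw [mem_filter] at hD ⊢
    refine ⟨hD.1, ?_⟩
    have h4 := Nat.floor_le (mul_pos hε hll).le
    have h5 : (⌊ε * Real.log (Real.log X)⌋₊ : ℝ) < R D := lt_of_le_of_lt h4 hD.2
    exact_mod_cast h5
  refine (h2.trans h1).trans ?_
  have h6 : Real.log X ^ (A + ((M : ℝ) - 1)) ≤ 2 ^ (k * (⌊ε * Real.log (Real.log X)⌋₊ + 1)) := by
    rw [← Real.rpow_natCast, Real.rpow_def_of_pos hl, Real.rpow_def_of_pos two_pos, Real.exp_le_exp]
    have h7 : A + ((M : ℝ) - 1) ≤ k * (ε * Real.log 2) := by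
      rw [div_le_iff₀ (mul_pos hε hl2)] at hk
      exact hk
    have h8 : ε * Real.log (Real.log X) ≤ (⌊ε * Real.log (Real.log X)⌋₊ : ℝ) + 1 :=
      (Nat.lt_floor_add_one _).le
    push_cast
    calc Real.log (Real.log X) * (A + ((M : ℝ) - 1)) ≤
          Real.log (Real.log X) * (k * (ε * Real.log 2)) := mul_le_mul_of_nonneg_left h7 hll.le
      _ = Real.log 2 * (k * (ε * Real.log (Real.log X))) := by ring
      _ ≤ Real.log 2 * (k * ((⌊ε * Real.log (Real.log X)⌋₊ : ℝ) + 1)) := by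
          refine mul_le_mul_of_nonneg_left (mul_le_mul_of_nonneg_left h8 (Nat.cast_nonneg _)) hl2.le
  have h9 := pow_log_le hX (M - 1)
  rw [Nat.cast_sub hM, Nat.cast_one] at h9
  have hp : 0 < Real.log X ^ ((M : ℝ) - 1) := Real.rpow_pos_of_pos hl _
  have hA : 0 < Real.log X ^ A := Real.rpow_pos_of_pos hl _
  calc C * X * (1 + Real.log X) ^ (M - 1) / 2 ^ (k * (⌊ε * Real.log (Real.log X)⌋₊ + 1)) ≤
        C * X * (2 ^ (M - 1) * Real.log X ^ ((M : ℝ) - 1)) / Real.log X ^ (A + ((M : ℝ) - 1)) := by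
        gcongr
    _ = C * 2 ^ (M - 1) * X / Real.log X ^ A := by
        rw [Real.rpow_add hl]
        field_simp

theorem sparseW (hR : Mom R) {M : ℕ} (hM : 1 ≤ M) (A ε : ℝ) (hε : 0 < ε) :
    ∃ C : ℝ, 0 < C ∧ ∀ X : ℝ, 3 ≤ X → ∀ 𝒟 : Finset F, Twists X 𝒟 →
      X / Real.log X ^ A ≤ mass M 𝒟 →
      ∑ D ∈ 𝒟, (M : ℝ) ^ wt D * R D ≤ (ε * Real.log (Real.log X) + C) * mass M 𝒟 := by
  have hl2 : 0 < Real.log 2 := Real.log_pos one_lt_two
  obtain ⟨k, hk⟩ := exists_nat_ge (max 1 ((A + (M - 1)) / (ε * Real.log 2)))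
  have hk1 : (1 : ℝ) ≤ k := (le_max_left _ _).trans hk
  have hk2 : (A + (M - 1)) / (ε * Real.log 2) ≤ k := (le_max_right _ _).trans hk
  obtain ⟨C, hC, hmain⟩ := hR M hM k
  set C' : ℝ := C * 2 ^ (M - 1) with hC'
  have hC'0 : 0 < C' := by positivity
  refine ⟨|Real.logb 2 C'| + 1, by positivity, fun X hX 𝒟 h𝒟 hcard => ?_⟩
  have hX0 : 0 < X := by linarith
  have hll := loglog_pos hX
  have hl : 0 < Real.log X := Real.log_pos (by linarith)
  have hlA : 0 < Real.log X ^ A := Real.rpow_pos_of_pos hl A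
  have hlM : 0 < Real.log X ^ (A + ((M : ℝ) - 1)) := Real.rpow_pos_of_pos hl _
  have hc : (0 : ℝ) < mass M 𝒟 := lt_of_lt_of_le (div_pos hX0 hlA) hcard
  have hne : 𝒟.Nonempty := by
    rcases 𝒟.eq_empty_or_nonempty with h0 | h0
    · rw [h0] at hc
      simp [mass] at hc
    · exact h0
  have h1 := geomW hM hne R k (hmain X (by linarith) 𝒟 h𝒟)
  have h2 : C * X * (1 + Real.log X) ^ (M - 1) / mass M 𝒟 ≤
      C' * Real.log X ^ (A + ((M : ℝ) - 1)) := by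
    rw [div_le_iff₀ hc]
    have h9 := pow_log_le hX (M - 1)
    rw [Nat.cast_sub hM, Nat.cast_one] at h9
    rw [div_le_iff₀ hlA] at hcard
    have hp : 0 < Real.log X ^ ((M : ℝ) - 1) := Real.rpow_pos_of_pos hl _
    calc C * X * (1 + Real.log X) ^ (M - 1) ≤
          C * (mass M 𝒟 * Real.log X ^ A) * (2 ^ (M - 1) * Real.log X ^ ((M : ℝ) - 1)) := by
          gcongr
      _ = C' * Real.log X ^ (A + ((M : ℝ) - 1)) * mass M 𝒟 := by
          rw [Real.rpow_add hl, hC']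
          ring
  have hpos : 0 < C * X * (1 + Real.log X) ^ (M - 1) / mass M 𝒟 := by
    have : 0 < 1 + Real.log X := by linarith
    positivity
  have h3 : Real.logb 2 (C * X * (1 + Real.log X) ^ (M - 1) / mass M 𝒟) ≤
      Real.logb 2 C' + (A + ((M : ℝ) - 1)) * Real.log (Real.log X) / Real.log 2 := by
    have h4 := Real.logb_le_logb_of_le one_lt_two hpos h2
    rw [Real.logb_mul hC'0.ne' hlM.ne'] at h4
    have h5 : Real.logb 2 (Real.log X ^ (A + ((M : ℝ) - 1))) =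
        (A + ((M : ℝ) - 1)) * Real.log (Real.log X) / Real.log 2 := by
      rw [Real.logb, Real.log_rpow hl]
    rw [h5] at h4
    exact h4
  have h6 : A + ((M : ℝ) - 1) ≤ k * (ε * Real.log 2) := by
    rw [div_le_iff₀ (mul_pos hε hl2)] at hk2
    exact hk2
  have h7 : (A + ((M : ℝ) - 1)) * Real.log (Real.log X) / Real.log 2 ≤
      k * (ε * Real.log (Real.log X)) := by
    rw [div_le_iff₀ hl2]
    calc (A + ((M : ℝ) - 1)) * Real.log (Real.log X) ≤
          k * (ε * Real.log 2) * Real.log (Real.log X) := mul_le_mul_of_nonneg_right h6 hll.le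
      _ = k * (ε * Real.log (Real.log X)) * Real.log 2 := by ring
  have h8 : Real.logb 2 C' ≤ k * (|Real.logb 2 C'| + 1) := by
    have h9 : Real.logb 2 C' ≤ |Real.logb 2 C'| := le_abs_self _
    have h10 : 0 ≤ |Real.logb 2 C'| := abs_nonneg _
    nlinarith
  have h11 : (k : ℝ) * ∑ D ∈ 𝒟, (M : ℝ) ^ wt D * R D ≤
      k * ((ε * Real.log (Real.log X) + (|Real.logb 2 C'| + 1)) * mass M 𝒟) := by
    refine h1.trans ?_
    calc mass M 𝒟 * Real.logb 2 (C * X * (1 + Real.log X) ^ (M - 1) / mass M 𝒟) ≤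
          mass M 𝒟 * (k * (|Real.logb 2 C'| + 1) + k * (ε * Real.log (Real.log X))) :=
          mul_le_mul_of_nonneg_left (h3.trans (add_le_add h8 h7)) hc.le
      _ = _ := by ring
  exact le_of_mul_le_mul_left h11 (by linarith)

/-- the means over the complete sets -/
theorem meanW (hCNT : S_CNT) (hLOWW : S_LOWW) (hR : Mom R) {M : ℕ} (hM : 1 ≤ M) (k : ℕ) :
    ∃ C : ℝ, 0 < C ∧ ∀ X : ℝ, 1 ≤ X → ∀ 𝒟 : Finset F, AllTwists X 𝒟 →
      ∑ D ∈ 𝒟, (M : ℝ) ^ wt D * (2 : ℝ) ^ (k * R D) ≤ C * mass M 𝒟 := by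
  obtain ⟨C1, hC1, h1⟩ := hR M hM k
  obtain ⟨C2, hC2, h2⟩ := massFam hCNT hLOWW F M hM
  refine ⟨C1 * C2, by positivity, fun X hX 𝒟 h𝒟 => ?_⟩
  have h3 := (h2 X hX 𝒟 h𝒟).1
  rw [div_le_iff₀ (by linarith)] at h3
  calc ∑ D ∈ 𝒟, (M : ℝ) ^ wt D * (2 : ℝ) ^ (k * R D) ≤ C1 * X * (1 + Real.log X) ^ (M - 1) :=
        h1 X hX 𝒟 h𝒟.toTwists
    _ = C1 * (X * (1 + Real.log X) ^ (M - 1)) := by ring
    _ ≤ C1 * (mass M 𝒟 * C2) := mul_le_mul_of_nonneg_left h3 hC1.le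
    _ = _ := by ring

/-- one function for all tails -/
theorem psiW (hCNT : S_CNT) (hLOWW : S_LOWW) (hR : Mom R) {M : ℕ} (hM : 1 ≤ M) :
    ∃ ψ : ℕ → ℝ, (∀ c : ℝ, Filter.Tendsto (fun n => c ^ n * ψ n) Filter.atTop (nhds 0)) ∧
      ∀ X : ℝ, 1 ≤ X → ∀ 𝒟 : Finset F, AllTwists X 𝒟 → ∀ n : ℕ,
        mass M (𝒟.filter (fun D => n ≤ R D)) ≤ ψ n * mass M 𝒟 := by
  choose C hC hmain using fun k : ℕ => meanW hCNT hLOWW hR hM k
  have hne : ∀ n : ℕ, (Set.range fun k : ℕ => C k / 2 ^ (k * n)).Nonempty := fun n =>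
    Set.range_nonempty _
  have hbd : ∀ n : ℕ, BddBelow (Set.range fun k : ℕ => C k / 2 ^ (k * n)) := fun n =>
    ⟨0, by
      rintro x ⟨k, rfl⟩
      exact div_nonneg (hC k).le (by positivity)⟩
  refine ⟨fun n => sInf (Set.range fun k : ℕ => C k / 2 ^ (k * n)), fun c => ?_,
    fun X hX 𝒟 h𝒟 n => ?_⟩
  · obtain ⟨k, hk⟩ : ∃ k : ℕ, |c| < 2 ^ k := by
      obtain ⟨k, hk⟩ := pow_unbounded_of_one_lt |c| (one_lt_two : (1 : ℝ) < 2)
      exact ⟨k, hk⟩
    have h1 : Filter.Tendsto (fun n : ℕ => C k * (|c| / 2 ^ k) ^ n) Filter.atTop (nhds 0) := by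
      have h2 : |c| / 2 ^ k < 1 := (div_lt_one (by positivity)).2 hk
      have h3 := tendsto_pow_atTop_nhds_zero_of_lt_one (div_nonneg (abs_nonneg c)
        (by positivity : (0 : ℝ) ≤ 2 ^ k)) h2
      simpa using h3.const_mul (C k)
    refine squeeze_zero_norm (fun n => ?_) h1
    have h4 : 0 ≤ sInf (Set.range fun k : ℕ => C k / 2 ^ (k * n)) := le_csInf (hne n) (by
      rintro x ⟨k, rfl⟩
      exact div_nonneg (hC k).le (by positivity))
    have h5 : sInf (Set.range fun k : ℕ => C k / 2 ^ (k * n)) ≤ C k / 2 ^ (k * n) :=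
      csInf_le (hbd n) ⟨k, rfl⟩
    rw [Real.norm_eq_abs, abs_mul, abs_pow, abs_of_nonneg h4]
    calc |c| ^ n * sInf (Set.range fun k : ℕ => C k / 2 ^ (k * n)) ≤ |c| ^ n * (C k / 2 ^ (k * n)) :=
          mul_le_mul_of_nonneg_left h5 (by positivity)
      _ = C k * (|c| / 2 ^ k) ^ n := by
          rw [div_pow, ← pow_mul]
          ring
  · rcases 𝒟.eq_empty_or_nonempty with h0 | h0
    · rw [h0]
      simp [mass]
    · have hW := mass_pos hM h0
      rw [← div_le_iff₀ hW]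
      refine le_csInf (hne n) ?_
      rintro x ⟨k, rfl⟩
      change mass M (𝒟.filter (fun D => n ≤ R D)) / mass M 𝒟 ≤ C k / 2 ^ (k * n)
      rw [div_le_iff₀ hW]
      refine (tailW (hmain k X hX 𝒟 h𝒟) n).trans (le_of_eq ?_)
      ring

end concl

end Pool.Agent.Q161.ESB
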