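import Pool.Agent.Q161.ESB.Stm5

/-!
# Project ESB (helper161), part 6: the number of the elementary abelian 2-extensions (lower bound)
-/

set_option autoImplicit false

namespace Pool.Agent.Q161.ESB

open NumberField IsDedekindDomain Finset

/-- JOB LOWA. Many classes without small primes.
Proof.  `κ` = the density of the ideals in a given ideal class (Mathlib: `NumberField.Ideal.tendsto_norm_le_and_mk_eq_div_atTop`,
see `prs_ge` in `Pool/Agent/Q237/ESN/CntA.lean`; it is the same for all classes).  For a divisor `𝔡` of `∏_{v ∈ P} v` the number of the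
principal ideals of norm `≤ t` divisible by `𝔡` is the number of the ideals of norm `≤ t/N𝔡` in the class of `𝔡⁻¹`, so
(inclusion-exclusion) the number of the principal ideals of norm `≤ t` prime to all `v ∈ P` is `~ κ t ∏_{v ∈ P} (1 - 1/Nv)`, and the
number of those divisible by `u²`, `u ∉ P`, is `~ κ t ∏_{v ∈ P} (1 - 1/Nv)/(Nu)²`; for the `u` with `Nu > T` together at most
`C t ∑_{Nu > T} 1/(Nu)²` (`ids_le`, `sum_le` there), which is small if `T` is large (depending on `P`).  If `P ⊇ P0`, where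
`∑_{u ∉ P0} 1/(Nu)² ≤ 1/4` (`exists_small`), at least `(κ/2) t ∏_{v ∈ P} (1 - 1/Nv)` squarefree principal ideals `(α)` prime to `P` remain
for large `t`.  Take `𝒟` = the chosen generators `α`: `OddAt v α` iff `v ∣ α`; different squarefree ideals give different classes
modulo squares. -/
def S_LOWA : Prop := ∀ (F : Type) [Field F] [NumberField F], ∃ (c : ℝ)
  (P0 : Finset (HeightOneSpectrum (𝓞 F))), 0 < c ∧ ∀ P : Finset (HeightOneSpectrum (𝓞 F)), P0 ⊆ P →
  ∃ t0 : ℝ, 1 ≤ t0 ∧ ∀ t : ℝ, t0 ≤ t → ∃ 𝒟 : Finset F, Twists t 𝒟 ∧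
    (∀ D ∈ 𝒟, ∀ v ∈ P, ¬ OddAt v D) ∧
    c * (∏ v ∈ P, (1 - 1 / ((Ideal.absNorm v.asIdeal : ℕ) : ℝ))) * t ≤ 𝒟.card

/-- JOB LOWB. Many subgroups of order `2^m`.
Proof (from `S_LOWA`, `S_CLS`).  Upper bound: at most `C t` different classes `D` with `oddNorm D ≤ t`, `u | D` for at most `C t/Nu` of
them (`ids_le`, `S_CLS`).  `P` = the primes of norm `≤ z`; `p(z) = ∏_{v ∈ P} (1 - 1/Nv) ≥ c (log z)^(-2d)` (at most `d = [F : ℚ]` primes
above each rational prime, Mertens or `∑_{l ≤ z} 1/l ≤ log log z + C`; any lower bound `≥ c z^(-1/8)` is enough),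
`τ(z) = ∑_{Nv > z} 1/(Nv)² ≤ C/z`.  `N = 2^m - 1`, `η = c p(z)/(4 C N)`.  `G` = the classes `D` of `S_LOWA` (without support in `P`) with
`∑_{v ∈ supp D} 1/Nv ≤ η`: there are at least `c p(z) t - (C/η) τ(z) t ≥ (c/2) p(z) t` of norm `≤ t` if `z` is large (fixed from now
on), `t ≥ t0`.  Tuples `(n_T)`, `T` the nonempty subsets of `Fin m`, of elements of `G`, the supports pairwise disjoint, `oddNorm > 1`,
`∏ oddNorm n_T ≤ X`: choose them one after the other; given the first ones, with the supports `q`, the number of the next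
ones of norm `≤ t` with a support disjoint from `q` is `≥ (c/2) p(z) t - ∑_{v ∈ q} C t/Nv ≥ (c/4) p(z) t` (the sum over `v ∈ q` is
`≤ N η`) (minus those with `oddNorm = 1`, a bounded number).  Dyadic norms: the number of the tuples is `≥ c' X (log X)^(N-1)`
(`N` variables with `∏ ≤ X`: choose the norms of the first `N - 1` in `[2^(a_i), 2^(a_i + 1)]`-type intervals `2^(a_i) ≥ t1`,
`∑ a_i ≤ (log X)/2`; the number of the classes in `(t, B t]` is `≥ c t` for a large constant `B`).  `b_j = ∏_{T ∋ j} n_T`: `OddAt v (b_j)` iff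
`v ∈ supp n_T`, `T ∋ j`.  The classes of the `b_j` determine the supports of the `n_T`, so their classes up to `C^N` possibilities
(`S_CLS`), and a subgroup has at most `2^(m²)` bases; `b` is independent as for `S ∋ j` the support of `∏_{i ∈ S} b_i`
contains that of `n_{j}`.  `N - 1 = 2^m - 2`. -/
def S_LOWB : Prop := ∀ (F : Type) [Field F] [NumberField F] (m : ℕ), 1 ≤ m → ∃ c X0 : ℝ, 0 < c ∧ 1 ≤ X0 ∧
  ∀ X : ℝ, X0 ≤ X → ∃ (n : ℕ) (b : Fin n → Fin m → F), (∀ i, Indep (b i)) ∧
    (∀ i i', i ≠ i' → ¬ SubSp (b i) (b i')) ∧ (∀ i, SupLe (b i) X) ∧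
    c * X * (1 + Real.log X) ^ (2 ^ m - 2) ≤ n

/-- JOB DUP. Upper bound for the discriminant.
Proof (generalises `discr_le_norm`, `discr_le` in `Pool/Agent/Q161/ESN/QuadB.lean`, the case `m = 1`).  For `S ⊆ Fin m` let
`D_S ∈ 𝓞 F` be the representative (`t_rep`) of the class of `∏_{j ∈ S} b j` with `|N D_S| ≤ C oddNorm(..)`, `r_S ∈ K` its square root.
The lattice `⊕_S r_S 𝓞 F ⊆ 𝓞 K` (basis `r_S ω_i`) has full rank: the trace form: `Tr_{K/F}(r_S r_T) = 0` for `S ≠ T`
(`r_S r_T` is a square root of a nonsquare of `F`, it has trace zero), `= 2^m D_S` for `S = T`; so its discriminant is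
`∏_S (2^(m d) |N D_S| |discr F|) ≠ 0`, `d = [F : ℚ]`, and `|discr K|` is at most this.
`∏_S oddNorm(D_S) = (∏_{v ∈ supp} N v)^(2^(m-1))`: every `v` in the support divides exactly `2^(m-1)` of the `D_S`. -/
def S_DUP : Prop := ∀ (F : Type) [Field F] [NumberField F] (m : ℕ), 1 ≤ m → ∃ C : ℝ, 0 < C ∧
  ∀ (K : Type) [Field K] [NumberField K] [Algebra F K], El F K m → ∀ b : Fin m → F, Bas K b →
  ∀ X : ℝ, 1 ≤ X → SupLe b X → ((discr K).natAbs : ℝ) ≤ C * X ^ 2 ^ (m - 1)

/-- JOB EXT. Existence of `K`: the splitting field over `F` of `∏_j (X² - b j)` (compare `QF`, `root_splittingField` in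
`Pool/Agent/Q161/ESN/QuadA.lean` or `QuadC.lean` for `m = 1`); its degree is `2^m` as `b` is independent (induction). -/
def S_EXT : Prop := ∀ (F : Type) [Field F] [NumberField F] (m : ℕ) (b : Fin m → F), Indep b →
  ∃ (K : Type) (_ : Field K) (_ : NumberField K) (_ : Algebra F K), El F K m ∧ Bas K b

end Pool.Agent.Q161.ESB
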