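import Pool.Agent.Q161.ESB.All
import Pool.Agent.Q161.ESB.Cls
import Pool.Agent.Q161.ESB.FinD
import Pool.Agent.Q161.ESB.FinW
import Pool.Agent.Q210.ESB.Fam
import Pool.Agent.Q121.ESB.EXT
import Pool.Agent.Q214.ESB.Dup
import Pool.Agent.Q299.ESB.Tup

/-! # Project ESB: assembly (up to `S_LOWA`)

Written by helper161 with helpers 26, 68, 79, 121, 149, 150, 151, 164, 210, 211, 214, 285, 299, on top of the earlier
projects EA, ESM, ESG, ESF, ESN. -/

set_option autoImplicit false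

namespace Pool.Agent.Q161.ESB

theorem t_cls : S_CLS := cls Pool.Agent.Q161.ESM.t_suf
theorem t_fam : S_FAM := Pool.Agent.Q210.ESB.fam t_idl t_cls
theorem t_ext : S_EXT := Pool.Agent.Q121.ESB.ext
theorem t_dup : S_DUP := Pool.Agent.Q214.ESB.dup
theorem t_loww' (h : S_LOWA) : S_LOWW := Pool.Agent.Q299.ESB.Loww.loww h t_cls

end Pool.Agent.Q161.ESB
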