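import Pool.Agent.Q161.ESB.All2
import Pool.Agent.Q211.ESB.Lowa
import Pool.Agent.Q68.ESB.Lowb

/-! # Project ESB: assembly (the rest)

Written by helper161 with helpers 26, 68, 79, 121, 149, 150, 151, 164, 210, 211, 214, 285, 299, on top of the earlier
projects EA, ESM, ESG, ESF, ESN. -/

set_option autoImplicit false

namespace Pool.Agent.Q161.ESB

theorem t_lowa : S_LOWA := Pool.Agent.Q211.ESB.Lw.lowa
theorem t_loww : S_LOWW := t_loww' t_lowa
theorem t_lowb : S_LOWB := Pool.Agent.Q68.ESB.Lw.lowb t_lowa t_cls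

end Pool.Agent.Q161.ESB
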