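import Pool.Agent.Q161.ESB.Goal

/-! # Project ESB: weighted moments, corollaries -/

set_option autoImplicit false

namespace Pool.Agent.Q161.ESB

open Polynomial NumberField IsDedekindDomain Finset

open scoped Classical

open Pool.Agent.Q161.ESG (shF twF)
open Pool.Agent.Q161.ESF (Sel2)
open Pool.Agent.Q161.ESN (selOrder tw exists_den noroot_scale tw_scale oddAt_mul_sq)

section defs

variable {F : Type} [Field F] [NumberField F]

theorem wt_mul_sq {D s : F} (hs : s ≠ 0) : wt (D * s ^ 2) = wt D := by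
  unfold wt
  simp only [oddAt_mul_sq hs]

/-- `D` and `D'` are in the same class modulo squares -/
def SqEq (D D' : F) : Prop := ∃ t : F, t ≠ 0 ∧ D' = D * t ^ 2

/-- classes modulo squares -/
def sqSetoid (F : Type) [Field F] [NumberField F] : Setoid F where
  r := SqEq
  iseqv := ⟨fun D => ⟨1, one_ne_zero, by ring⟩, by
    rintro D D' ⟨t, ht, rfl⟩
    refine ⟨t⁻¹, inv_ne_zero ht, ?_⟩
    field_simp, by
    rintro D D' D'' ⟨t, ht, rfl⟩ ⟨u, hu, rfl⟩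
    exact ⟨t * u, mul_ne_zero ht hu, by ring⟩⟩

/-- a representative of the class of `D` modulo squares -/
noncomputable def rep (D : F) : F := (Quotient.mk (sqSetoid F) D).out

theorem rep_spec (D : F) : ∃ t : F, t ≠ 0 ∧ rep D = D * t ^ 2 := by
  have h : (sqSetoid F).r (rep D) D := Quotient.mk_out (s := sqSetoid F) D
  exact (sqSetoid F).iseqv.symm h

theorem rep_ne {D : F} (hD : D ≠ 0) : rep D ≠ 0 := by
  obtain ⟨t, ht, h⟩ := rep_spec D
  rw [h]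
  exact mul_ne_zero hD (pow_ne_zero _ ht)

theorem rep_mul_sq {D s : F} (hs : s ≠ 0) : rep (D * s ^ 2) = rep D := by
  unfold rep
  congr 1
  refine Quotient.sound (s := sqSetoid F) ?_
  exact (sqSetoid F).iseqv.symm ⟨s, hs, rfl⟩

theorem wt_rep (D : F) : wt (rep D) = wt D := by
  obtain ⟨t, ht, h⟩ := rep_spec D
  rw [h, wt_mul_sq ht]

theorem oddNorm_rep (D : F) : oddNorm (rep D) = oddNorm D := by
  obtain ⟨t, ht, h⟩ := rep_spec D
  rw [h, Pool.Agent.Q161.ESN.oddNorm_mul_sq ht]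

theorem not_sq_rep {D D' : F} (hD : D ≠ 0) (hD' : D' ≠ 0) (h : ¬ IsSquare (D * D')) :
    ¬ IsSquare (rep D * rep D') := by
  obtain ⟨t, ht, h1⟩ := rep_spec D
  obtain ⟨u, hu, h2⟩ := rep_spec D'
  rintro ⟨q, hq⟩
  refine h ⟨q / (t * u), ?_⟩
  rw [h1, h2] at hq
  field_simp
  linear_combination hq

theorem rep_injOn {X : ℝ} {𝒟 : Finset F} (h : Twists X 𝒟) : Set.InjOn rep (𝒟 : Set F) := by
  intro D hD D' hD' he
  by_contra hne
  refine not_sq_rep (h.ne D hD) (h.ne D' hD') (h.dist D hD D' hD' hne) ?_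
  rw [he]
  exact ⟨_, rfl⟩

theorem twists_rep {X : ℝ} {𝒟 : Finset F} (h : Twists X 𝒟) : Twists X (𝒟.image rep) := by
  refine ⟨fun E hE => ?_, fun E hE => ?_, fun E hE E' hE' hne => ?_⟩
  · obtain ⟨D, hD, rfl⟩ := mem_image.1 hE
    exact rep_ne (h.ne D hD)
  · obtain ⟨D, hD, rfl⟩ := mem_image.1 hE
    rw [oddNorm_rep]
    exact h.norm D hD
  · obtain ⟨D, hD, rfl⟩ := mem_image.1 hE
    obtain ⟨D', hD', rfl⟩ := mem_image.1 hE'
    exact not_sq_rep (h.ne D hD) (h.ne D' hD') (h.dist D hD D' hD' fun e => hne (by rw [e]))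

end defs

section main

variable (hCNT : S_CNT)

include hCNT

/-- the weighted joint moments, coefficients in `F` -/
theorem goalW' (M : ℕ) (hM : 1 ≤ M) (J : Type) [Fintype J] (F : Type) [Field F] [NumberField F]
    (a b : J → F) (h : ∀ j, ∀ x : F, x ^ 3 + a j * x + b j ≠ 0) :
    ∃ C0 : ℝ, 0 < C0 ∧ ∀ X : ℝ, 1 ≤ X → ∀ 𝒟 : Finset F, Twists X 𝒟 →
      ((∑ D ∈ 𝒟, M ^ wt D * ∏ j, selOrder (a j) (b j) D : ℕ) : ℝ) ≤
        C0 * X * (1 + Real.log X) ^ (M - 1) := by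
  obtain ⟨u, hu, huI, hu2⟩ := exists_den (J ⊕ J) (Sum.elim a b)
  have ha : ∀ j, IsIntegral ℤ (u ^ 4 * a j) := fun j => by
    have e : u ^ 4 * a j = u ^ 3 * (u * a j) := by ring
    rw [e]
    exact (huI.pow 3).mul (hu2 (Sum.inl j))
  have hb : ∀ j, IsIntegral ℤ (u ^ 6 * b j) := fun j => by
    have e : u ^ 6 * b j = u ^ 5 * (u * b j) := by ring
    rw [e]
    exact (huI.pow 5).mul (hu2 (Sum.inr j))
  obtain ⟨C0, hC0, hmain⟩ := goalW hCNT M hM J F (fun j => ⟨u ^ 4 * a j, ha j⟩)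
    (fun j => ⟨u ^ 6 * b j, hb j⟩) (fun j x => noroot_scale hu (h j) x)
  refine ⟨C0, hC0, fun X hX 𝒟 h𝒟 => ?_⟩
  have h𝒟' := h𝒟.mul_sq (inv_ne_zero hu)
  have key : ∀ (D : F) (j : J), selOrder (a j) (b j) D =
      Nat.card (Sel2 (shF ((u ^ 4 * a j) * (D * (u⁻¹) ^ 2) ^ 2)
        ((u ^ 6 * b j) * (D * (u⁻¹) ^ 2) ^ 3))) := fun D j => by
    rw [tw_scale hu, selOrder]
  have h1 := hmain X hX (𝒟.image (fun D => D * (u⁻¹) ^ 2))
    (fun E hE => ⟨h𝒟'.ne E hE, h𝒟'.norm E hE⟩) h𝒟'.dist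
  rw [sum_image (fun D _ D' _ e => by
    have hs : (u⁻¹) ^ 2 ≠ 0 := pow_ne_zero _ (inv_ne_zero hu)
    exact mul_right_cancel₀ hs e)] at h1
  have h2 : ∑ D ∈ 𝒟, M ^ wt D * ∏ j, selOrder (a j) (b j) D = ∑ D ∈ 𝒟, M ^ wt (D * (u⁻¹) ^ 2) *
      ∏ j, Nat.card (Sel2 (shF ((u ^ 4 * a j) * (D * (u⁻¹) ^ 2) ^ 2)
        ((u ^ 6 * b j) * (D * (u⁻¹) ^ 2) ^ 3))) :=
    sum_congr rfl fun D _ => by
      rw [wt_mul_sq (inv_ne_zero hu)]
      exact congrArg _ (prod_congr rfl fun j _ => key D j)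
  rw [h2]
  exact h1

/-- the weighted joint moments -/
theorem momentsW (M : ℕ) (hM : 1 ≤ M) (J : Type) [Fintype J] (F : Type) [Field F] [NumberField F]
    (a b : J → F) (h : ∀ j, ∀ x : F, x ^ 3 + a j * x + b j ≠ 0) (k : ℕ) :
    ∃ C : ℝ, 0 < C ∧ ∀ X : ℝ, 1 ≤ X → ∀ 𝒟 : Finset F, Twists X 𝒟 →
      ∑ D ∈ 𝒟, (M : ℝ) ^ wt D * (∏ j, (selOrder (a j) (b j) D : ℝ)) ^ k ≤
        C * X * (1 + Real.log X) ^ (M - 1) := by
  obtain ⟨C, hC, h2⟩ := goalW' hCNT M hM (J × Fin k) F (fun i => a i.1) (fun i => b i.1)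
    (fun i => h i.1)
  refine ⟨C, hC, fun X hX 𝒟 h𝒟 => ?_⟩
  have h3 := h2 X hX 𝒟 h𝒟
  rw [Nat.cast_sum] at h3
  refine le_trans (sum_le_sum fun D hD => le_of_eq ?_) h3
  rw [Nat.cast_mul, Nat.cast_pow, Fintype.prod_prod_type, Nat.cast_prod, ← prod_pow]
  congr 1
  refine prod_congr rfl fun j _ => ?_
  have e : ∀ n : ℕ, (∏ _x : Fin k, n) = n ^ k := fun n => by simp
  rw [← Nat.cast_pow]
  exact congrArg Nat.cast (e (selOrder (a j) (b j) D)).symm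

/-- the class function of the family -/
theorem wtd_sel (J : Type) [Fintype J] (F : Type) [Field F] [NumberField F]
    (a b : J → F) (h : ∀ j, ∀ x : F, x ^ 3 + a j * x + b j ≠ 0) (k : ℕ) :
    Wtd (fun D : F => (∏ j, (selOrder (a j) (b j) (rep D) : ℝ)) ^ k) := by
  intro M hM
  obtain ⟨C, hC, h1⟩ := momentsW hCNT M hM J F a b h k
  refine ⟨C, hC, fun X hX 𝒟 h𝒟 => ?_⟩
  have h2 := h1 X hX (𝒟.image rep) (twists_rep h𝒟)
  rw [sum_image (rep_injOn h𝒟)] at h2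
  simpa only [wt_rep] using h2

theorem wtd_one (F : Type) [Field F] [NumberField F] : Wtd (fun _ : F => (1 : ℝ)) := by
  have h := wtd_sel hCNT (Fin 0) F (fun _ => 0) (fun _ => 0) (fun j => Fin.elim0 j) 0
  intro M hM
  obtain ⟨C, hC, h1⟩ := h M hM
  refine ⟨C, hC, fun X hX 𝒟 h𝒟 => ?_⟩
  simpa using h1 X hX 𝒟 h𝒟

end main

end Pool.Agent.Q161.ESB
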