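import Pool.Agent.Q161.ESB.Stm1
import Pool.Agent.Q161.ESN.Stm2

/-!
# Project ESB (helper161), part 2: `M` blocks of equivariant functions

As `Pool/Agent/Q161/ESN/Stm2.lean`, with `M` blocks: the vectors of the sieve are the families `z m`, `m ∈ Fin M`, of
equivariant functions `z m : V → 𝓞 K`.  The local conditions `LocB` for the products `∏_m z m`: exactly one `z m t` is divisible
by `w`.

THEOREM (`S_MN`).  If all `z m t` are nice, `T` has at most `C X (1 + log X)^(M - 1)` elements with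
`|N_(F/ℚ)(∏ z m t)| ≤ X`.

`S_RPX, S_EVX, S_FRX, S_RES, S_N1F, S_EXC2, S_KEY, S_LCU, S_LCT` are used as they are (proved, see
`Pool/Agent/Q161/ESN/All.lean`).  For the instances on `Fin M → ..` nothing special is needed.
-/

set_option autoImplicit false

namespace Pool.Agent.Q161.ESB

open NumberField IsDedekindDomain Finset
open Pool.Agent.Q51.EL (pr Abv N1)

export Pool.Agent.Q161.ESM (GSt Semi IsSub NS S_KEY EqF S_LCU S_LCT)
export Pool.Agent.Q161.ESN (Nice S_EXC2 iO Ov Fb Mv Eqv Loc Rp IsEv S_RPX S_EVX Frm S_FRX S_RES S_N1F)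

/-! ## Part A: finite modules and finite fields -/

section field

variable {k V : Type} [Field k] {M : ℕ}

/-- `c` is compatible with the Frobenius element (the blocks are fixed) -/
def EqB (l : ℕ) (F : V → V) (c : V × Fin M → k) : Prop := ∀ s m, c (F s, m) = c (s, m) ^ l

end field

/-- JOB LCUB. The number of the functions without zeros.
Proof: as `S_LCU` (or from `S_LCU` for the `M` sections `{s | (s, m) ∈ S}`: `∏_m (1 - N_m/l + #V²/l²) ≤ 1 - ∑_m N_m/l + A/l²`). -/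
def S_LCUB : Prop := ∀ (M : ℕ) (V : Type) [AddCommGroup V] [Fintype V] [DecidableEq V], ∃ A : ℝ,
  ∀ (k : Type) [Field k] [Fintype k] (l : ℕ), l.Prime → ∀ (F : V → V), Function.Bijective F →
  ∀ (S : Finset (V × Fin M)), (∀ s m, (s, m) ∈ S ↔ (F s, m) ∈ S) → ∀ z : V × Fin M → k,
    (({c : V × Fin M → k | EqB l F c ∧ (∀ x, x ∉ S → c x = z x) ∧ ∀ x ∈ S, c x ≠ 0}.ncard : ℕ) : ℝ) ≤
      (l : ℝ) ^ S.card * (1 - ((S.filter (fun x => F x.1 = x.1)).card : ℝ) / l + A / (l : ℝ) ^ 2)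

/-- JOB LCTB. The number of the functions with the zero `(t, m0)` and given characters.
Proof (from `S_LCT`).  `V_S = {s | ∃ m, (s, m) ∈ S}`.  Choose for every `s ∈ V_S` a block `j(s)` with `(s, j(s)) ∈ S`, constant on the
orbits of `F` (for instance the smallest one; `S` is stable), and `j(t) = m0` on the orbit `{t}` of `t`.  For given values of
`c` at the other elements of `S` (at most `l^(#S - #V_S)` possibilities: orbits of `F`, `c(s, m)^(l^#w) = c(s, m)`; this is also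
`Pool/Agent/Q299/ESM/Cnt.lean`) the function `c1 s = c (s, j s)` on `V_S`, `c1 s = 1` (say) outside, satisfies the
conditions of `S_LCT`, the characters `ξ` divided by the (nonzero) contribution of the other values of `c`.  So at most
`l^(#V_S - 1)/NS` possibilities. -/
def S_LCTB : Prop := ∀ (M : ℕ) (k V : Type) [Field k] [Fintype k] [AddCommGroup V] [Fintype V]
  [DecidableEq V] (l f : ℕ), l.Prime → l ≠ 2 → Fintype.card k = l ^ f → (∀ v : V, v + v = 0) →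
  ∀ (F : V →+ V), Function.Bijective F → (∀ s, F^[f] s = s) →
  ∀ (S : Finset (V × Fin M)), (∀ s m, (s, m) ∈ S ↔ (F s, m) ∈ S) → ∀ (z : V × Fin M → k) (t : V)
    (m0 : Fin M), (t, m0) ∈ S → F t = t →
  ∀ ξ : (V →+ ZMod 2) → k,
    (({c : V × Fin M → k | EqB l F c ∧ (∀ x, x ∉ S → c x = z x) ∧ c (t, m0) = 0 ∧
      (∀ x, x ≠ (t, m0) → c x ≠ 0) ∧
      ∀ φ : V →+ ZMod 2, (∀ s, φ (F s) = φ s) →
        (∏ s ∈ univ.filter (fun s => φ (s - t) ≠ 0), ∏ m, c (s, m)) ^ ((l - 1) / 2) =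
          ξ φ}.ncard : ℕ) : ℝ) *
      NS F {s : V | ∃ m, (s, m) ∈ S} t ≤ (l : ℝ) ^ (S.card - 1)

/-! ## Part B: equivariant functions -/

section K

variable (F : Type) [Field F] [NumberField F] {K : Type} [Field K] [NumberField K] [Algebra F K]

variable {V : Type} [AddCommGroup V] [DistribMulAction (K ≃ₐ[F] K) V]

variable {F} in
/-- the local conditions at `w` -/
structure LocB {M : ℕ} (w : HeightOneSpectrum (𝓞 K)) (l : ℕ) (φ : K ≃ₐ[F] K) [Fintype V]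
    (T : Set (Fin M → V → 𝓞 K)) : Prop where
  one : ∀ z ∈ T, ∀ m t, z m t ∈ w.asIdeal →
    φ • t = t ∧ ∀ m' s, (m', s) ≠ (m, t) → z m' s ∉ w.asIdeal
  two : ∀ z ∈ T, ∀ z' ∈ T, ∀ t m m', z m t ∈ w.asIdeal → z' m' t ∈ w.asIdeal →
    ∀ χ : V →+ ZMod 2, (∀ s, χ (φ • s) = χ s) →
      (∏ s ∈ univ.filter (fun s => χ (s - t) ≠ 0), ∏ j, z j s * z' j s) ^ ((l - 1) / 2) - 1 ∈ w.asIdeal

end K

/-! ## Part C: the system -/

open Classical in
/-- abstract data at a prime `l` (compare `AbF` in `Pool/Agent/Q161/ESN/Stm2.lean`; only `Om`, `om`, `xi` are different) -/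
structure AbB {M : ℕ} {P : Type} [Fintype P] {k : P → Type} [∀ p, Field (k p)] {V G ι : Type}
    [AddCommGroup V] [Fintype V] [Group G] [DistribMulAction G V] (n : ι → ℕ)
    (l d : ℕ) (q : P → ℕ) (φ : P → G) (orb : V → ι) (R : Vm n l → (p : P) → V → k p)
    (Om : Set (Fin M → Vm n l)) : Prop where
  lp : l.Prime
  l2 : l ≠ 2
  d0 : 0 < d
  inj : Function.Injective R
  eqf : ∀ y p s, R y p (φ p • s) = R y p s ^ q p
  cmp : ∀ (y z : Vm n l) (s : V), y (orb s) = z (orb s) → ∀ p, R y p s = R z p s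
  nn : ∀ i, d * (univ.filter (fun s => orb s = i)).card = n i
  sur : ∀ i, ∃ s, orb s = i
  orbG : ∀ s s' : V, orb s = orb s' ↔ ∃ g : G, g • s = s'
  prod : ∏ p, q p = l ^ d
  dich : ∀ p, q p = l ∨ l ^ 2 ≤ q p
  fin : ∀ p, ∃ f : ℕ, 0 < f ∧ Nat.card (k p) = q p ^ f ∧ φ p ^ f = 1
  om : ∀ y ∈ Om, ∀ p, q p = l → ∀ t m, R (y m) p t = 0 →
    φ p • t = t ∧ ∀ s m', (s, m') ≠ (t, m) → R (y m') p s ≠ 0
  xi : ∀ p, q p = l → ∀ t, ∃ ξ : (V →+ ZMod 2) → k p, ∀ y ∈ Om, ∀ m, R (y m) p t = 0 →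
    ∀ χ : V →+ ZMod 2, (∀ s, χ (φ p • s) = χ s) →
      (∏ s ∈ univ.filter (fun s => χ (s - t) ≠ 0), ∏ j, R (y j) p s) ^ ((l - 1) / 2) = ξ χ

section full

variable {ι V : Type} [AddCommGroup V] {M : ℕ}

/-- the bad sets: all blocks of a stable subgroup -/
def BadB (orb : V → ι) (S : Finset (ι × Fin M)) : Prop :=
  IsSub {s : V | ∃ m, (orb s, m) ∈ S} ∧ ∀ i m m', (i, m) ∈ S → (i, m') ∈ S

end full

open Classical in
/-- JOB CNF. The number of the allowed classes (adapt `Pool/Agent/Q285/ESN/Cnf.lean`; from `S_KEY`, `S_LCUB`, `S_LCTB`).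
Proof.  `W_S = {(s, m) | (orb s, m) ∈ S}`, `V_S` = its projection to `V`.  `N_p` = the number of the `(t, m) ∈ W_S` with `φ p t = t`;
`NS ≥ #{t ∈ V_S | φ p t = t}` (`S_KEY`, for `V_S`), so `N_p ≤ M NS`, and (first part)
`#A_p ≤ l^#W_S (1 - N_p/l + A/l²) + N_p l^(#W_S - 1)/NS ≤ l^#W_S (1 - (N_p - M)/l + A/l²)`.  Second part (all `q p = l`, `φ p = 1`): if
`V_S` is not a subgroup then `NS ≥ #V_S + 1` and `N_p/NS ≤ M - M/(#V_S + 1)`; if `V_S` is a subgroup but there are `(i, m) ∈ S`,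
`(i, m') ∉ S`, then `N_p ≤ M #V_S - 1`, `N_p/NS ≤ M - 1/#V_S`.  Third part: at `p0` the type `0` does not occur, so there are at most
`M (#V_S - 1)` types.  `κ = 1/(#V + 1)`. -/
def S_CNF : Prop := ∀ (M : ℕ) (V G : Type) [AddCommGroup V] [Fintype V] [Group G]
  [DistribMulAction G V], 1 ≤ M →
  (∀ v : V, v + v = 0) → Semi G V → (∀ v : V, (∀ g : G, g • v = v) → v = 0) → ∀ d : ℕ,
  ∃ A κ : ℝ, 0 < κ ∧ ∀ (P ι : Type) [Fintype P] [Fintype ι] (k : P → Type) [∀ p, Field (k p)]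
    (n : ι → ℕ) (l : ℕ) (q : P → ℕ) (φ : P → G) (orb : V → ι) (R : Vm n l → (p : P) → V → k p)
    (Om : Set (Fin M → Vm n l)), AbB n l d q φ orb R Om →
  ∀ (S : Finset (ι × Fin M)) (z : Fin M → Vm n l), S.Nonempty →
    (∀ s m, (orb s, m) ∉ S → ∀ p, R (z m) p s ≠ 0) →
    ((({y | y ∈ Om ∧ ∀ i m, (i, m) ∉ S → y m i = z m i}.ncard : ℕ) : ℝ) /
      (l : ℝ) ^ (∑ x ∈ S, n x.1) ≤
      1 - (∑ p ∈ univ.filter (fun p => q p = l),
        (((univ.filter (fun x : V × Fin M => (orb x.1, x.2) ∈ S ∧ φ p • x.1 = x.1)).card : ℝ) - M)) / l +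
          A / (l : ℝ) ^ 2) ∧
    ((∀ p, q p = l ∧ φ p = 1) → ¬ BadB orb S →
      (({y | y ∈ Om ∧ ∀ i m, (i, m) ∉ S → y m i = z m i}.ncard : ℕ) : ℝ) /
        (l : ℝ) ^ (∑ x ∈ S, n x.1) ≤
      1 - ((∑ p ∈ univ.filter (fun p => q p = l),
        (((univ.filter (fun x : V × Fin M => (orb x.1, x.2) ∈ S ∧ φ p • x.1 = x.1)).card : ℝ) - M)) +
          κ) / l + A / (l : ℝ) ^ 2) ∧
    ((∀ p, q p = l ∧ φ p = 1) → BadB orb S → ∀ p0 : P,
      (∀ y ∈ Om, (∀ i m, (i, m) ∉ S → y m i = z m i) → ∀ m, R (y m) p0 0 ≠ 0) →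
      (({y | y ∈ Om ∧ ∀ i m, (i, m) ∉ S → y m i = z m i}.ncard : ℕ) : ℝ) /
        (l : ℝ) ^ (∑ x ∈ S, n x.1) ≤
      1 - ((∑ p ∈ univ.filter (fun p => q p = l),
        (((univ.filter (fun x : V × Fin M => (orb x.1, x.2) ∈ S ∧ φ p • x.1 = x.1)).card : ℝ) - M)) +
          κ) / l + A / (l : ℝ) ^ 2)

/-- JOB SYS. The data of the sieve, and their properties (adapt `Pool/Agent/Q208/ESN/{Loc, Loc2, Loc3, Glob, Sys0, Sys1,
Sys}.lean`; from `S_CNF`, `S_EVX`, `S_FRX`, `S_RES`, `S_N1F`, `EA.S_MER`, `S_EXC2`; see `S_SYS` in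
`Pool/Agent/Q161/ESN/Stm2.lean`).
The index set is `ι × Fin M`, `n' (i, m) = n i`; the vector `x` corresponds to `z m = ev (∑_j x (i, m) j bs i j)_i`.  `Om l` = the set
of the `y` such that for every `p` with `q p = l` the functions `c m = R (y (., m)) p` have no zeros, or `c m t = 0` for exactly
one `(t, m)`, `φ p t = t`, and there are `z' ∈ T`, `m'` with `z' m' t ∈ w p` and
`(∏_{χ(s-t) ≠ 0} ∏_j c j s * z' j s)^((l-1)/2) = 1` for all invariant `χ`.  `U l (i, m)`, `Nm (i, m)`, `Nc (i, m)`, `N1 (i, m)` as there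
(independent of `m`), `N0 l = M * N1 F l`, `sp` as there; `Bad S = BadB orb S`; `Inc S l x`: for a fixed `p0 ∈ P_l`, all `y ∈ Om l`
which agree with `rd l x` outside `S` satisfy `R (y (., m)) p0 0 ≠ 0` for all `m`.  `Ex`: `S` is bad, `(i0, m0) ∉ S`, so
`(i0, m) ∉ S` for all `m`; the characters `ψ_l(α) = (∏_{s ∈ orbit i0, χ s ≠ 0} ev(α) s)^((l-1)/2)` modulo `w p0`; the values of the
other variables (also of the other blocks) only change the sign `ε l`. -/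
def S_SYS : Prop := ∀ (M : ℕ) (F K : Type) [Field F] [NumberField F] [Field K] [NumberField K]
  [Algebra F K] [IsGalois ℚ K] (V : Type) [AddCommGroup V]
  [Fintype V] [DistribMulAction (K ≃ₐ[F] K) V], 1 ≤ M → (∀ v : V, v + v = 0) →
  Semi (K ≃ₐ[F] K) V → (∀ v : V, (∀ g : K ≃ₐ[F] K, g • v = v) → v = 0) →
  ∀ (ι : Type) [Fintype ι] [DecidableEq ι] (Lf : ι → Type) [∀ i, Field (Lf i)]
  [∀ i, NumberField (Lf i)] (em : (i : ι) → Lf i →+* K) (rp : ι → V), Rp F Lf em rp →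
  ∀ (ev : ((i : ι) → 𝓞 (Lf i)) →+* (V → 𝓞 K)), IsEv F em rp ev →
  ∀ (B : ℕ) (K0 : ℝ) (T : Set (Fin M → V → 𝓞 K)), B ≠ 0 →
  (∀ z ∈ T, ∀ m, Eqv F (z m) ∧
    ∀ i, ∃ α : 𝓞 (Lf i), em i (α : Lf i) = (z m (rp i) : K) ∧ Nice K0 α) →
  (∀ l : ℕ, l.Prime → ¬ l ∣ B → ∀ (w : HeightOneSpectrum (𝓞 K)) (φ : K ≃ₐ[F] K), Abv w l →
    Fb w l φ → LocB w l φ T) →
  ∃ (n : ι → ℕ) (bs : (i : ι) → Module.Basis (Fin (n i)) ℤ (𝓞 (Lf i)))
    (s : Sy (fun x : ι × Fin M => n x.1)) (A c κ C1 : ℝ),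
    Ok M s A c κ ∧ Ex s ∧ 0 < C1 ∧
    (∀ (i : ι) (x : Fin (n i) → ℤ) (Y : ℝ),
      (∀ σ : Lf i →+* ℂ, ‖σ ((∑ j, x j • bs i j : 𝓞 (Lf i)) : Lf i)‖ ≤ Y) → ∀ j, |(x j : ℝ)| ≤ C1 * Y) ∧
    (∀ x : Vc (fun x : ι × Fin M => n x.1),
      (fun m => ev (fun i => ∑ j, x (i, m) j • bs i j)) ∈ T →
      (∀ l : ℕ, l.Prime → ¬ l ∣ s.B → rd (fun x : ι × Fin M => n x.1) l x ∈ s.Om l) ∧
      ∀ x', x x' ∈ s.Nc x')

/-- JOB MN. The number of the elements of `T` (from `S_SYS`, `S_AN`, `S_EVX`; adapt `Pool/Agent/Q68/ESN/Mn.lean`).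
`|N_(F/ℚ)(N)| = ∏_(i,m) |N(α_(i,m))|`.  (`M ≤ #(ι × Fin M)` as `ι` is not empty.) -/
def S_MN : Prop := ∀ (M : ℕ) (F K : Type) [Field F] [NumberField F] [Field K] [NumberField K]
  [Algebra F K] [IsGalois ℚ K] (V : Type) [AddCommGroup V]
  [Fintype V] [DistribMulAction (K ≃ₐ[F] K) V], 1 ≤ M → (∀ v : V, v + v = 0) →
  Semi (K ≃ₐ[F] K) V → (∀ v : V, (∀ g : K ≃ₐ[F] K, g • v = v) → v = 0) →
  ∀ (ι : Type) [Fintype ι] [DecidableEq ι] (Lf : ι → Type) [∀ i, Field (Lf i)]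
  [∀ i, NumberField (Lf i)] (em : (i : ι) → Lf i →+* K) (rp : ι → V), Rp F Lf em rp →
  ∀ (B : ℕ) (K0 : ℝ) (T : Set (Fin M → V → 𝓞 K)), B ≠ 0 →
  (∀ z ∈ T, ∀ m, Eqv F (z m) ∧
    ∀ i, ∃ α : 𝓞 (Lf i), em i (α : Lf i) = (z m (rp i) : K) ∧ Nice K0 α) →
  (∀ l : ℕ, l.Prime → ¬ l ∣ B → ∀ (w : HeightOneSpectrum (𝓞 K)) (φ : K ≃ₐ[F] K), Abv w l →
    Fb w l φ → LocB w l φ T) →
  ∃ C : ℝ, 0 < C ∧ ∀ X : ℝ, 1 ≤ X →
    {z ∈ T | ∃ N : 𝓞 F, ∏ m, ∏ t, z m t = iO F K N ∧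
      ((Ideal.absNorm (Ideal.span {N}) : ℕ) : ℝ) ≤ X}.Finite ∧
    (({z ∈ T | ∃ N : 𝓞 F, ∏ m, ∏ t, z m t = iO F K N ∧
      ((Ideal.absNorm (Ideal.span {N}) : ℕ) : ℝ) ≤ X}.ncard : ℕ) : ℝ) ≤
      C * X * (1 + Real.log X) ^ (M - 1)

end Pool.Agent.Q161.ESB
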