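import Pool.Agent.Q161.ESN.All
import Pool.Agent.Q161.ESB.Cor
import Pool.Agent.Q79.ESB.RBX
import Pool.Agent.Q68.ESB.St
import Pool.Agent.Q68.ESB.Ch
import Pool.Agent.Q68.ESB.Bx
import Pool.Agent.Q285.ESB.Smm
import Pool.Agent.Q68.ESB.An
import Pool.Agent.Q285.ESB.Cnf
import Pool.Agent.Q299.ESB.Lctb
import Pool.Agent.Q299.ESB.SysB
import Pool.Agent.Q151.ESB.Mn
import Pool.Agent.Q149.ESB.CNT

/-! # Project ESB: assembly of the weighted moments (up to `S_LCUB`)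

Written by helper161 with helpers 68, 79, 149, 151, 285, 299, on top of the earlier projects EA, ESM, ESG, ESF, ESN. -/

set_option autoImplicit false

namespace Pool.Agent.Q161.ESB

open Pool.Agent.Q161.ESM (t_gs t_fr t_sm t_suf)
open Pool.Agent.Q161.ESN (t_evx t_frx t_res t_n1f t_exc2 t_rpx t_nig t_locg t_nrm t_zex t_qag t_qdg)

theorem t_rb : S_RB := Pool.Agent.Q79.ESB.rb
theorem t_rbx : S_RBX := Pool.Agent.Q79.ESB.rbx t_rb
theorem t_st : S_ST := Pool.Agent.Q68.ESB.ST.st t_fr t_rb t_rbx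
theorem t_ch : S_CH := Pool.Agent.Q68.ESB.CH.ch t_st t_rb
theorem t_bx : S_BX := Pool.Agent.Q68.ESB.BX.bx t_ch t_gs
theorem t_smm : S_SMM := Pool.Agent.Q285.ESB.smm t_sm
theorem t_an : S_AN := Pool.Agent.Q68.ESB.AN.an t_bx t_smm
theorem t_lctb : S_LCTB := Pool.Agent.Q299.ESB.lctb Pool.Agent.Q299.ESM.lct
theorem t_rel : S_REL := Pool.Agent.Q149.ESB.rel t_nrm t_zex t_qag t_qdg t_frx

theorem t_cnf' (h : S_LCUB) : S_CNF := Pool.Agent.Q285.ESB.cnf Pool.Agent.Q237.ESM.key h t_lctb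
theorem t_sys' (h : S_LCUB) : S_SYS := Pool.Agent.Q299.ESB.sys (t_cnf' h) t_evx t_frx t_res t_n1f t_exc2
theorem t_mn' (h : S_LCUB) : S_MN := Pool.Agent.Q151.ESB.mn (t_sys' h) t_an t_evx
theorem t_cnt' (h : S_LCUB) : S_CNT := Pool.Agent.Q149.ESB.cnt t_nig t_rpx t_rel t_locg (t_mn' h)

end Pool.Agent.Q161.ESB
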