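import Pool.Agent.Q161.ESB.Cor
import Pool.Agent.Q161.ESB.Stm6
import Pool.Agent.Q161.ESN.QuadC

/-! # Project ESB: elementary abelian 2-extensions, the core -/

set_option autoImplicit false

namespace Pool.Agent.Q161.ESB

open NumberField IsDedekindDomain Finset

open scoped Classical

open Pool.Agent.Q161.ESN (selOrder rank rank_le t_fin)
open Pool.Agent.Q161.ESN.Quad (rankOver abs_natAbs)

theorem prod_le_sum {α : Type} [Fintype α] [Nonempty α] (x : α → ℝ) (hx : ∀ i, 0 ≤ x i) :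
    ∏ i, x i ≤ ∑ i, x i ^ Fintype.card α := by
  obtain ⟨i0, -, h⟩ := exists_max_image univ x univ_nonempty
  calc ∏ i, x i ≤ ∏ _i : α, x i0 := prod_le_prod (fun i _ => hx i) fun i _ => h i (mem_univ i)
    _ = x i0 ^ Fintype.card α := by rw [prod_const, card_univ]
    _ ≤ _ := single_le_sum (f := fun i => x i ^ Fintype.card α)
      (fun i _ => pow_nonneg (hx i) _) (mem_univ i0)

section one

variable {F : Type} [Field F] [NumberField F]

theorem Indep.prod_ne {m : ℕ} {b : Fin m → F} (h : Indep b) (S : Finset (Fin m)) :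
    ∏ j ∈ S, b j ≠ 0 := prod_ne_zero_iff.2 fun j _ => h.ne j

theorem SubSp.refl {m : ℕ} (b : Fin m → F) : SubSp b b := fun j => ⟨{j}, by
  rw [prod_singleton]
  exact ⟨b j, rfl⟩⟩

variable {K : Type} [Field K] [NumberField K] [Algebra F K] {K' : Type} [Field K'] [NumberField K']
  [Algebra F K']

theorem Bas.subSp {m : ℕ} {b b' : Fin m → F} (h : Bas K b) (h' : Bas K' b') (f : K →ₐ[F] K') :
    SubSp b b' := by
  intro j
  obtain ⟨s, hs⟩ := h.sq j
  have hs0 : s ≠ 0 := by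
    rintro rfl
    rw [zero_pow two_ne_zero] at hs
    exact h.ind.ne j ((FaithfulSMul.algebraMap_eq_zero_iff F K).1 hs.symm)
  have h1 : f s ^ 2 = algebraMap F K' (b j) := by rw [← map_pow, hs, AlgHom.commutes]
  obtain ⟨S, t, ht⟩ := h'.all (f s) (b j) (fun h0 => hs0 ((_root_.map_eq_zero f).1 h0)) h1
  refine ⟨S, (∏ i ∈ S, b' i) * t, ?_⟩
  rw [ht]
  ring

/-- the rank over `K` -/
theorem rankOver_le {m : ℕ} (hK : El F K m) {b : Fin m → F} (hb : Bas K b) {r : ℕ} {a c : Fin r → F}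
    (h : ∀ i, ∀ x : F, x ^ 3 + a i * x + c i ≠ 0) :
    rankOver a c K ≤ ∑ S : Finset (Fin m), ∑ i, rank (a i) (c i) (rep (∏ j ∈ S, b j)) := by
  rw [sum_comm]
  refine sum_le_sum fun i _ => ?_
  have h5 : 4 * a i ^ 3 + 27 * c i ^ 2 ≠ 0 :=
    Pool.Agent.Q193.ESG.disc_ne (Pool.Agent.Q161.ESG.irrF (h i))
  let e : Finset (Fin m) ≃ Fin (Fintype.card (Finset (Fin m))) := Fintype.equivFin _
  have h6 := Pool.Agent.Q161.ESG.t_mqr F K hK.gal hK.two _
    (fun x => rep (∏ j ∈ e.symm x, b j)) (fun x => rep_ne (hb.ind.prod_ne _)) (fun s t hs0 hs => by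
      obtain ⟨S, u, hu⟩ := hb.all s t hs0 hs
      obtain ⟨w, hw, hw2⟩ := rep_spec (∏ j ∈ S, b j)
      refine ⟨e S, u / w, ?_⟩
      simp only [Equiv.symm_apply_apply]
      rw [hw2, hu]
      field_simp) (a i) (c i) h5
  refine le_trans h6 (le_of_eq ?_)
  exact Equiv.sum_comp e.symm (fun S => Module.finrank ℤ (Pool.Agent.Q161.ESG.shF
    (a i * rep (∏ j ∈ S, b j) ^ 2) (c i * rep (∏ j ∈ S, b j) ^ 3)).toAffine.Point)

/-- the class function -/
noncomputable def fS {r : ℕ} (a c : Fin r → F) (N : ℕ) (D : F) : ℝ :=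
  (∏ i, (selOrder (a i) (c i) (rep D) : ℝ)) ^ N

theorem two_pow_le {m : ℕ} (hK : El F K m) {b : Fin m → F} (hb : Bas K b) {r : ℕ} {a c : Fin r → F}
    (h : ∀ i, ∀ x : F, x ^ 3 + a i * x + c i ≠ 0) (k : ℕ) :
    (2 : ℝ) ^ (k * rankOver a c K) ≤ ∑ S : Finset (Fin m), fS a c (k * 2 ^ m) (∏ j ∈ S, b j) := by
  have h1 := rankOver_le hK hb h
  calc (2 : ℝ) ^ (k * rankOver a c K) ≤
        2 ^ (k * ∑ S : Finset (Fin m), ∑ i, rank (a i) (c i) (rep (∏ j ∈ S, b j))) :=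
        pow_le_pow_right₀ one_le_two (Nat.mul_le_mul_left k h1)
    _ = ∏ S : Finset (Fin m), (2 : ℝ) ^ (k * ∑ i, rank (a i) (c i) (rep (∏ j ∈ S, b j))) := by
        rw [mul_sum, ← prod_pow_eq_pow_sum]
    _ ≤ ∑ S : Finset (Fin m), ((2 : ℝ) ^ (k * ∑ i, rank (a i) (c i) (rep (∏ j ∈ S, b j)))) ^
          Fintype.card (Finset (Fin m)) := prod_le_sum _ fun S => by positivity
    _ ≤ _ := sum_le_sum fun S _ => by
        rw [Fintype.card_finset, Fintype.card_fin, ← pow_mul, fS]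
        have e1 : k * (∑ i, rank (a i) (c i) (rep (∏ j ∈ S, b j))) * 2 ^ m =
          (∑ i, rank (a i) (c i) (rep (∏ j ∈ S, b j))) * (k * 2 ^ m) := by ring
        rw [e1, pow_mul]
        refine pow_le_pow_left₀ (by positivity) ?_ _
        rw [← prod_pow_eq_pow_sum]
        exact prod_le_prod (fun _ _ => by positivity) fun i _ => by
          exact_mod_cast rank_le t_fin (h i) (rep_ne (hb.ind.prod_ne S))

end one

section core

variable (hCNT : S_CNT) (hFAM : S_FAM) (hKUM : S_KUM) (hISO : S_ISO)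

include hCNT hFAM in
/-- the number of the subgroups and the sum over them -/
theorem famSum (F : Type) [Field F] [NumberField F] (m : ℕ) (hm : 1 ≤ m) {r : ℕ} (a c : Fin r → F)
    (h : ∀ i, ∀ x : F, x ^ 3 + a i * x + c i ≠ 0) (N : ℕ) :
    ∃ C : ℝ, 0 < C ∧ ∀ X : ℝ, 1 ≤ X → ∀ (n : ℕ) (b : Fin n → Fin m → F), (∀ i, Indep (b i)) →
    (∀ i i', i ≠ i' → ¬ SubSp (b i) (b i')) → (∀ i, SupLe (b i) X) →
    ∑ i, ∑ S : Finset (Fin m), fS a c N (∏ j ∈ S, b i j) ≤ C * X * (1 + Real.log X) ^ (2 ^ m - 2) :=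
  hFAM F m hm (fS a c N) (fun D _ => by unfold fS; positivity)
    (fun D s _ hs => by unfold fS; rw [rep_mul_sq hs])
    (wtd_sel hCNT (Fin r) F a c h N) (wtd_one hCNT F)

include hCNT hFAM in
/-- the number of the subgroups -/
theorem famCard (F : Type) [Field F] [NumberField F] (m : ℕ) (hm : 1 ≤ m) :
    ∃ C : ℝ, 0 < C ∧ ∀ X : ℝ, 1 ≤ X → ∀ (n : ℕ) (b : Fin n → Fin m → F), (∀ i, Indep (b i)) →
    (∀ i i', i ≠ i' → ¬ SubSp (b i) (b i')) → (∀ i, SupLe (b i) X) →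
    (n : ℝ) ≤ C * X * (1 + Real.log X) ^ (2 ^ m - 2) := by
  obtain ⟨C, hC, h1⟩ := famSum hCNT hFAM F m hm (r := 0) (fun _ => 0) (fun _ => 0)
    (fun j => Fin.elim0 j) 0
  refine ⟨C, hC, fun X hX n b hb hd hs => ?_⟩
  refine le_trans ?_ (h1 X hX n b hb hd hs)
  have e : ∀ D : F, fS (r := 0) (fun _ => 0) (fun _ => 0) 0 D = 1 := fun D => by simp [fS]
  simp only [e, sum_const, card_univ, Fintype.card_fin, nsmul_eq_mul, mul_one, Fintype.card_finset]
  have h2 : (1 : ℝ) ≤ 2 ^ m := one_le_pow₀ one_le_two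
  push_cast
  exact le_mul_of_one_le_right (Nat.cast_nonneg _) h2

include hCNT hFAM hKUM hISO in
/-- the sum over the extensions -/
theorem core (F : Type) [Field F] [NumberField F] (m : ℕ) (hm : 1 ≤ m) (r : ℕ) (a c : Fin r → F)
    (h : ∀ i, ∀ x : F, x ^ 3 + a i * x + c i ≠ 0) (k : ℕ) :
    ∃ C : ℝ, 0 < C ∧ ∀ X : ℝ, 1 ≤ X → ∀ (n : ℕ) (K : Fin n → Type) [∀ i, Field (K i)]
      [∀ i, NumberField (K i)] [∀ i, Algebra F (K i)], (∀ i, El F (K i) m) →
      (∀ i j, i ≠ j → IsEmpty (K i ≃ₐ[F] K j)) →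
      (∀ i (b : Fin m → F), Bas (K i) b → SupLe b X) →
      ∑ i, (2 : ℝ) ^ (k * rankOver a c (K i)) ≤ C * X * (1 + Real.log X) ^ (2 ^ m - 2) := by
  obtain ⟨C, hC, h1⟩ := famSum hCNT hFAM F m hm a c h (k * 2 ^ m)
  refine ⟨C, hC, fun X hX n K _ _ _ hEl hd hs => ?_⟩
  choose b hb using fun i => hKUM F (K i) m (hEl i)
  refine le_trans (sum_le_sum fun i _ => two_pow_le (hEl i) (hb i) h k)
    (h1 X hX n b (fun i => (hb i).ind) (fun i i' hii hsub => ?_) fun i => hs i (b i) (hb i))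
  obtain ⟨f⟩ := hISO F (K i) (K i') m (hEl i) (hEl i') (b i) (b i') (hb i) (hb i') hsub
  exact (hd i i' hii).false f

end core

end Pool.Agent.Q161.ESB
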