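import Pool.Agent.Q161.ESB.FinA

/-! # Project ESB: the families of elementary abelian 2-extensions -/

set_option autoImplicit false

namespace Pool.Agent.Q161.ESB

open NumberField IsDedekindDomain Finset

open scoped Classical

open Pool.Agent.Q161.ESN.Quad (rankOver abs_natAbs)

/-- `K 0, .., K (n - 1)` are Galois extensions of `F` with group `(ℤ/2)^m`, pairwise not isomorphic over `F`, and the absolute
values of their discriminants are at most `X^(2^(m-1))` -/
structure Elementary (F : Type) [Field F] (m : ℕ) (X : ℝ) {n : ℕ} (K : Fin n → Type)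
    [∀ i, Field (K i)] [∀ i, NumberField (K i)] [∀ i, Algebra F (K i)] : Prop where
  gal : ∀ i, IsGalois F (K i)
  deg : ∀ i, Module.finrank F (K i) = 2 ^ m
  two : ∀ i, ∀ σ : K i ≃ₐ[F] K i, σ * σ = 1
  disc : ∀ i, |(discr (K i) : ℝ)| ≤ X ^ 2 ^ (m - 1)
  dist : ∀ i j, i ≠ j → IsEmpty (K i ≃ₐ[F] K j)

/-- `K 0, .., K (n - 1)` are all Galois extensions of `F` with group `(ℤ/2)^m` (each isomorphism class over `F` once) for
which the absolute value of the discriminant is at most `X^(2^(m-1))` -/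
structure AllElementary (F : Type) [Field F] (m : ℕ) (X : ℝ) {n : ℕ} (K : Fin n → Type)
    [∀ i, Field (K i)] [∀ i, NumberField (K i)] [∀ i, Algebra F (K i)] : Prop
    extends Elementary F m X K where
  all : ∀ (L : Type) [Field L] [NumberField L] [Algebra F L], IsGalois F L →
    Module.finrank F L = 2 ^ m → (∀ σ : L ≃ₐ[F] L, σ * σ = 1) → |(discr L : ℝ)| ≤ X ^ 2 ^ (m - 1) →
    ∃ i, Nonempty (L ≃ₐ[F] K i)

section fam

variable {F : Type} [Field F] [NumberField F]

theorem Elementary.el {m : ℕ} {X : ℝ} {n : ℕ} {K : Fin n → Type} [∀ i, Field (K i)]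
    [∀ i, NumberField (K i)] [∀ i, Algebra F (K i)] (h : Elementary F m X K) (i : Fin n) :
    El F (K i) m := ⟨h.gal i, h.deg i, h.two i⟩

variable (hDSC : S_DSC)

include hDSC in
theorem supLe {K : Type} [Field K] [NumberField K] [Algebra F K] {m : ℕ} (hm : 1 ≤ m)
    (hK : El F K m) {b : Fin m → F} (hb : Bas K b) {X : ℝ} (hX : 1 ≤ X)
    (hd : |(discr K : ℝ)| ≤ X ^ 2 ^ (m - 1)) : SupLe b X := by
  intro A hA
  have h1 := hDSC F K m hm hK.deg A (fun v hv => by
    obtain ⟨j, hj⟩ := hA v hv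
    obtain ⟨s, hs⟩ := hb.sq j
    exact ⟨s, b j, hb.ind.ne j, hs, hj⟩)
  rw [abs_natAbs] at hd
  have h2 : (∏ v ∈ A, ((Ideal.absNorm v.asIdeal : ℕ) : ℝ)) ^ 2 ^ (m - 1) ≤ X ^ 2 ^ (m - 1) := by
    refine le_trans ?_ hd
    exact_mod_cast h1
  exact le_of_pow_le_pow_left₀ (pow_ne_zero _ two_ne_zero) (by linarith) h2

variable (hCNT : S_CNT) (hFAM : S_FAM) (hKUM : S_KUM) (hISO : S_ISO) (hEXT : S_EXT)

include hDSC hCNT hFAM hKUM hISO hEXT in
/-- existence of complete families -/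
theorem exists_all (F : Type) [Field F] [NumberField F] (m : ℕ) (hm : 1 ≤ m) (X : ℝ) (hX : 1 ≤ X) :
    ∃ (n : ℕ) (K : Fin n → Type) (_ : ∀ i, Field (K i)) (_ : ∀ i, NumberField (K i))
      (_ : ∀ i, Algebra F (K i)), AllElementary F m X K := by
  obtain ⟨C, hC, hcard⟩ := famCard hCNT hFAM F m hm
  choose Q i1 i2 i3 hEl hBas using fun b : {b : Fin m → F // Indep b} => hEXT F m b.1 b.2
  let P : Finset (Fin m → F) → Prop := fun B =>
    (∀ b ∈ B, ∃ h : Indep b, |(discr (Q ⟨b, h⟩) : ℝ)| ≤ X ^ 2 ^ (m - 1)) ∧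
      ∀ b ∈ B, ∀ b' ∈ B, b ≠ b' → ¬ SubSp b b'
  have hbound : ∀ B, P B → B.card ≤ ⌊C * X * (1 + Real.log X) ^ (2 ^ m - 2)⌋₊ := by
    rintro B ⟨h1, h2⟩
    refine Nat.le_floor ?_
    let e : Fin B.card ≃ B := B.equivFin.symm
    refine hcard X hX B.card (fun i => (e i : Fin m → F)) (fun i => (h1 _ (e i).2).1)
      (fun i i' hii => h2 _ (e i).2 _ (e i').2 fun he => hii (e.injective (Subtype.ext he)))
      fun i => ?_
    obtain ⟨h3, h4⟩ := h1 _ (e i).2
    exact supLe hDSC hm (hEl ⟨_, h3⟩) (hBas ⟨_, h3⟩) hX h4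
  obtain ⟨B, hB, hmax⟩ : ∃ B, P B ∧ ∀ B', P B' → B'.card ≤ B.card := by
    let R : ℕ → Prop := fun n => ∃ B, P B ∧ B.card = n
    have hR0 : R 0 := ⟨∅, ⟨by simp, by simp⟩, rfl⟩
    obtain ⟨B, hB, hBc⟩ := Nat.findGreatest_spec (P := R)
      (Nat.zero_le ⌊C * X * (1 + Real.log X) ^ (2 ^ m - 2)⌋₊) hR0
    refine ⟨B, hB, fun B' hB' => ?_⟩
    rw [hBc]
    exact Nat.le_findGreatest (hbound B' hB') ⟨B', hB', rfl⟩
  let e : Fin B.card ≃ B := B.equivFin.symm
  have hind : ∀ i, Indep (e i : Fin m → F) := fun i => (hB.1 _ (e i).2).1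
  have hdi : ∀ i, |(discr (Q ⟨e i, hind i⟩) : ℝ)| ≤ X ^ 2 ^ (m - 1) := fun i => (hB.1 _ (e i).2).2
  refine ⟨B.card, fun i => Q ⟨e i, hind i⟩, fun i => inferInstance, fun i => inferInstance,
    fun i => inferInstance, ⟨⟨fun i => (hEl _).gal, fun i => (hEl _).deg, fun i => (hEl _).two, hdi,
      fun i j hij => ⟨fun f => ?_⟩⟩, fun L _ _ _ hG hdeg htwo hdL => ?_⟩⟩
  · exact hB.2 _ (e i).2 _ (e j).2 (fun he => hij (e.injective (Subtype.ext he)))
      ((hBas ⟨e i, hind i⟩).subSp (hBas ⟨e j, hind j⟩) f.toAlgHom)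
  · by_contra hno
    push Not at hno
    have hL : El F L m := ⟨hG, hdeg, htwo⟩
    obtain ⟨bL, hbL⟩ := hKUM F L m hL
    obtain ⟨f0⟩ := hISO F L (Q ⟨bL, hbL.ind⟩) m hL (hEl _) bL bL hbL (hBas ⟨bL, hbL.ind⟩)
      (SubSp.refl bL)
    have hdisc : discr (Q ⟨bL, hbL.ind⟩) = discr L :=
      (discr_eq_discr_of_ringEquiv _ f0.toRingEquiv).symm
    have h1 : ∀ b ∈ B, ¬ SubSp bL b ∧ ¬ SubSp b bL := by
      intro b hb
      have hbi : Indep b := (hB.1 b hb).1
      have hi : (e (e.symm ⟨b, hb⟩) : Fin m → F) = b := by rw [Equiv.apply_symm_apply]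
      have hgen : ∀ (i : Fin B.card) (q : {b : Fin m → F // Indep b}),
          (⟨e i, hind i⟩ : {b : Fin m → F // Indep b}) = q → IsEmpty (L ≃ₐ[F] Q q) := by
        rintro i q rfl
        exact hno i
      have hQ : ∀ f : Nonempty (L ≃ₐ[F] Q ⟨b, hbi⟩), False := fun f =>
        (not_nonempty_iff.2 (hgen (e.symm ⟨b, hb⟩) ⟨b, hbi⟩ (Subtype.ext hi))) f
      refine ⟨fun hs => hQ (hISO F L _ m hL (hEl _) bL b hbL (hBas ⟨b, hbi⟩) hs), fun hs => hQ ?_⟩
      obtain ⟨g⟩ := hISO F (Q ⟨b, hbi⟩) L m (hEl _) hL b bL (hBas ⟨b, hbi⟩) hbL hs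
      exact ⟨g.symm⟩
    have hnot : bL ∉ B := fun hb => (h1 bL hb).1 (SubSp.refl bL)
    have hP : P (insert bL B) := by
      refine ⟨fun b hb => ?_, fun b hb b' hb' hne => ?_⟩
      · rcases mem_insert.1 hb with hb1 | hb1
        · rw [hb1]
          exact ⟨hbL.ind, by rw [hdisc]; exact hdL⟩
        · exact hB.1 b hb1
      · rcases mem_insert.1 hb with hb1 | hb1
        · rcases mem_insert.1 hb' with hb2 | hb2
          · exact absurd (hb1.trans hb2.symm) hne
          · rw [hb1]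
            exact (h1 b' hb2).1
        · rcases mem_insert.1 hb' with hb2 | hb2
          · rw [hb2]
            exact (h1 b hb1).2
          · exact hB.2 b hb1 b' hb2 hne
    have h2 := hmax _ hP
    rw [card_insert_of_notMem hnot] at h2
    omega

/-- a complete family has many members -/
theorem card_ge {m : ℕ} {X : ℝ} {n : ℕ} {K : Fin n → Type} [∀ i, Field (K i)]
    [∀ i, NumberField (K i)] [∀ i, Algebra F (K i)] (h : AllElementary F m X K) {n' : ℕ}
    {b : Fin n' → Fin m → F} (hd : ∀ i i', i ≠ i' → ¬ SubSp (b i) (b i'))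
    (hQ : ∀ i, ∃ (L : Type) (_ : Field L) (_ : NumberField L) (_ : Algebra F L), El F L m ∧
      Bas L (b i) ∧ |(discr L : ℝ)| ≤ X ^ 2 ^ (m - 1)) : n' ≤ n := by
  choose L i1 i2 i3 hEl hBas hdisc using hQ
  choose g hg using fun i => h.all (L i) (hEl i).gal (hEl i).deg (hEl i).two (hdisc i)
  have hinj : Function.Injective g := by
    intro i i' hii
    by_contra hne
    obtain ⟨f⟩ := hg i
    obtain ⟨f'⟩ := hg i'
    rw [← hii] at f'
    exact hd i i' hne ((hBas i).subSp (hBas i') (f.trans f'.symm).toAlgHom)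
  have := Fintype.card_le_of_injective g hinj
  simpa using this

variable (hLOWB : S_LOWB) (hDUP : S_DUP)

include hDSC hCNT hFAM hKUM hISO hEXT hLOWB hDUP in
/-- the number of the extensions -/
theorem number (F : Type) [Field F] [NumberField F] (m : ℕ) (hm : 1 ≤ m) : ∃ C : ℝ, 1 ≤ C ∧
    ∀ X : ℝ, 1 ≤ X →
    (∃ (n : ℕ) (K : Fin n → Type) (_ : ∀ i, Field (K i)) (_ : ∀ i, NumberField (K i))
      (_ : ∀ i, Algebra F (K i)), AllElementary F m X K) ∧
    ∀ (n : ℕ) (K : Fin n → Type) [∀ i, Field (K i)] [∀ i, NumberField (K i)]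
      [∀ i, Algebra F (K i)], AllElementary F m X K →
      (C ≤ X → X * (1 + Real.log X) ^ (2 ^ m - 2) / C ≤ n) ∧
      (n : ℝ) ≤ C * X * (1 + Real.log X) ^ (2 ^ m - 2) := by
  obtain ⟨C1, hC1, hcard⟩ := famCard hCNT hFAM F m hm
  obtain ⟨C2, hC2, hdup⟩ := hDUP F m hm
  obtain ⟨c, X0, hc, hX0, hlow⟩ := hLOWB F m hm
  set E := 2 ^ m - 2 with hE
  set D : ℝ := max 1 C2 with hD
  have hD1 : 1 ≤ D := le_max_left _ _
  set C3 : ℝ := max (max C1 (D * 2 ^ E / c)) (max (D * X0) (D ^ 2)) with hC3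
  have hC3a : C1 ≤ C3 := (le_max_left _ _).trans (le_max_left _ _)
  have hC3b : D * 2 ^ E / c ≤ C3 := (le_max_right _ _).trans (le_max_left _ _)
  have hC3c : D * X0 ≤ C3 := (le_max_left _ _).trans (le_max_right _ _)
  have hC3d : D ^ 2 ≤ C3 := (le_max_right _ _).trans (le_max_right _ _)
  have hC31 : 1 ≤ C3 := by nlinarith
  have hC30 : 0 < C3 := by linarith
  refine ⟨C3, hC31, fun X hX => ⟨exists_all hDSC hCNT hFAM hKUM hISO hEXT F m hm X hX,
    fun n K _ _ _ hK => ⟨fun hXC => ?_, ?_⟩⟩⟩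
  · have hXD1 : X0 ≤ X / D := by
      rw [le_div_iff₀ (by positivity)]
      linarith
    have hXD0 : 1 ≤ X / D := hX0.trans hXD1
    obtain ⟨n', b, hb, hdist, hsup, hn'⟩ := hlow (X / D) hXD1
    have hnn : n' ≤ n := by
      refine card_ge hK hdist fun i => ?_
      obtain ⟨L, j1, j2, j3, hL, hbL⟩ := hEXT F m (b i) (hb i)
      refine ⟨L, j1, j2, j3, hL, hbL, ?_⟩
      rw [abs_natAbs]
      refine (hdup L hL (b i) hbL (X / D) hXD0 (hsup i)).trans ?_
      rw [div_pow, mul_div_assoc', div_le_iff₀ (by positivity), mul_comm]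
      refine mul_le_mul_of_nonneg_left ?_ (by positivity)
      calc C2 ≤ D := le_max_right _ _
        _ ≤ D ^ 2 ^ (m - 1) := le_self_pow₀ hD1 (pow_ne_zero _ two_ne_zero)
    have hlogD : 0 ≤ Real.log D := Real.log_nonneg hD1
    have hlogX : 0 ≤ Real.log X := Real.log_nonneg hX
    have hlog2 : 2 * Real.log D ≤ Real.log X := by
      rw [← Real.log_rpow (by positivity)]
      refine Real.log_le_log (by positivity) ?_
      have e : D ^ (2 : ℝ) = D ^ 2 := by norm_cast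
      rw [e]
      linarith
    have hhalf : (1 + Real.log X) / 2 ≤ 1 + Real.log (X / D) := by
      rw [Real.log_div (by positivity) (by positivity)]
      linarith
    have h5 : X * (1 + Real.log X) ^ E / C3 ≤ c * (X / D) * (1 + Real.log (X / D)) ^ E := by
      have h6 : ((1 + Real.log X) / 2) ^ E ≤ (1 + Real.log (X / D)) ^ E :=
        pow_le_pow_left₀ (by positivity) hhalf E
      calc X * (1 + Real.log X) ^ E / C3 ≤ X * (1 + Real.log X) ^ E / (D * 2 ^ E / c) :=
            div_le_div_of_nonneg_left (by positivity) (by positivity) hC3b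
        _ = c * (X / D) * ((1 + Real.log X) / 2) ^ E := by
            rw [div_pow]
            field_simp
        _ ≤ _ := mul_le_mul_of_nonneg_left h6 (by positivity)
    exact (h5.trans hn').trans (by exact_mod_cast hnn)
  · choose b hb using fun i => hKUM F (K i) m (hK.el i)
    have h1 := hcard X hX n b (fun i => (hb i).ind) (fun i i' hii hsub => by
      obtain ⟨f⟩ := hISO F (K i) (K i') m (hK.el i) (hK.el i') (b i) (b i') (hb i) (hb i') hsub
      exact (hK.dist i i' hii).false f) fun i =>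
        supLe hDSC hm (hK.el i) (hb i) hX (hK.disc i)
    refine h1.trans ?_
    have h2 : 0 ≤ Real.log X := Real.log_nonneg hX
    gcongr

end fam

end Pool.Agent.Q161.ESB
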