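import Pool.Agent.Q161.ESB.FinW
import Pool.Agent.Q161.ESM.Cor

/-! # Project ESB: the conclusions for the weighted moments of a nonnegative function -/

set_option autoImplicit false

namespace Pool.Agent.Q161.ESB

open NumberField IsDedekindDomain Finset

open scoped Classical

open Pool.Agent.Q161.ESN (AllTwists)

/-- bounds for all weighted moments -/
def MomS {F : Type} [Field F] [NumberField F] (s : F → ℝ) : Prop :=
  ∀ M : ℕ, 1 ≤ M → ∀ k : ℕ, ∃ C : ℝ, 0 < C ∧ ∀ X : ℝ, 1 ≤ X → ∀ 𝒟 : Finset F, Twists X 𝒟 →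
    ∑ D ∈ 𝒟, (M : ℝ) ^ wt D * s D ^ k ≤ C * X * (1 + Real.log X) ^ (M - 1)

variable {F : Type} [Field F] [NumberField F] {s : F → ℝ}

theorem tailS {M k : ℕ} {𝒟 : Finset F} (h0 : ∀ D ∈ 𝒟, 0 ≤ s D) {B : ℝ}
    (hB : ∑ D ∈ 𝒟, (M : ℝ) ^ wt D * s D ^ k ≤ B) {T : ℝ} (hT : 0 < T) :
    mass M (𝒟.filter (fun D => T ≤ s D)) ≤ B / T ^ k := by
  rw [le_div_iff₀ (pow_pos hT k)]
  refine le_trans ?_ hB
  rw [mass, sum_mul]
  calc ∑ D ∈ 𝒟.filter (fun D => T ≤ s D), (M : ℝ) ^ wt D * T ^ k ≤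
        ∑ D ∈ 𝒟.filter (fun D => T ≤ s D), (M : ℝ) ^ wt D * s D ^ k :=
        sum_le_sum fun D hD => mul_le_mul_of_nonneg_left
          (pow_le_pow_left₀ hT.le (mem_filter.1 hD).2 k) (by positivity)
    _ ≤ _ := sum_le_sum_of_subset_of_nonneg (filter_subset _ _) fun D hD _ =>
        mul_nonneg (by positivity) (pow_nonneg (h0 D hD) k)

theorem lamS (h0 : ∀ D, D ≠ 0 → 0 ≤ s D) (hs : MomS s) {M : ℕ} (hM : 1 ≤ M) (k : ℕ) :
    ∃ C : ℝ, 0 < C ∧ ∀ X : ℝ, 3 ≤ X → ∀ 𝒟 : Finset F, Twists X 𝒟 → ∀ t : ℝ,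
      ∑ D ∈ 𝒟.filter (fun D => t * Real.log (Real.log X) ≤ wt D), s D ^ k ≤
        C * X * Real.log X ^ ((M : ℝ) - 1 - t * Real.log M) := by
  obtain ⟨C, hC, h⟩ := hs M hM k
  refine ⟨C * 2 ^ (M - 1), by positivity, fun X hX 𝒟 h𝒟 t => ?_⟩
  have hX0 : 0 < X := by linarith
  have hl : 0 < Real.log X := Real.log_pos (by linarith)
  have hM0 : (0 : ℝ) < M := by exact_mod_cast hM
  have h1 := h X (by linarith) 𝒟 h𝒟
  have h2 : (∑ D ∈ 𝒟.filter (fun D => t * Real.log (Real.log X) ≤ wt D), s D ^ k) *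
      Real.log X ^ (t * Real.log M) ≤ C * X * (1 + Real.log X) ^ (M - 1) := by
    refine le_trans ?_ h1
    rw [sum_mul]
    calc ∑ D ∈ 𝒟.filter (fun D => t * Real.log (Real.log X) ≤ wt D),
          s D ^ k * Real.log X ^ (t * Real.log M) ≤
          ∑ D ∈ 𝒟.filter (fun D => t * Real.log (Real.log X) ≤ wt D),
            (M : ℝ) ^ wt D * s D ^ k := sum_le_sum fun D hD => by
          rw [mul_comm]
          refine mul_le_mul_of_nonneg_right ?_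
            (pow_nonneg (h0 D (h𝒟.ne D (mem_filter.1 hD).1)) k)
          rw [← Real.rpow_natCast, Real.rpow_def_of_pos hl, Real.rpow_def_of_pos hM0,
            Real.exp_le_exp]
          have h3 := (mem_filter.1 hD).2
          have h4 : 0 ≤ Real.log M := Real.log_nonneg (by exact_mod_cast hM)
          calc Real.log (Real.log X) * (t * Real.log M) = Real.log M * (t * Real.log (Real.log X)) := by
                ring
            _ ≤ Real.log M * wt D := mul_le_mul_of_nonneg_left h3 h4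
      _ ≤ _ := sum_le_sum_of_subset_of_nonneg (filter_subset _ _) fun D hD _ =>
        mul_nonneg (by positivity) (pow_nonneg (h0 D (h𝒟.ne D hD)) k)
  have h5 : C * X * (1 + Real.log X) ^ (M - 1) ≤
      C * 2 ^ (M - 1) * X * Real.log X ^ ((M : ℝ) - 1) := by
    have h6 := pow_log_le hX (M - 1)
    rw [Nat.cast_sub hM, Nat.cast_one] at h6
    calc C * X * (1 + Real.log X) ^ (M - 1) ≤ C * X * (2 ^ (M - 1) * Real.log X ^ ((M : ℝ) - 1)) :=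
          mul_le_mul_of_nonneg_left h6 (by positivity)
      _ = _ := by ring
  rw [Real.rpow_sub hl, mul_div_assoc', le_div_iff₀ (Real.rpow_pos_of_pos hl _)]
  exact h2.trans h5

theorem meanS (hCNT : S_CNT) (hLOWW : S_LOWW) (hs : MomS s) {M : ℕ} (hM : 1 ≤ M) (k : ℕ) :
    ∃ C : ℝ, 0 < C ∧ ∀ X : ℝ, 1 ≤ X → ∀ 𝒟 : Finset F, AllTwists X 𝒟 →
      ∑ D ∈ 𝒟, (M : ℝ) ^ wt D * s D ^ k ≤ C * mass M 𝒟 := by
  obtain ⟨C1, hC1, h1⟩ := hs M hM k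
  obtain ⟨C2, hC2, h2⟩ := massFam hCNT hLOWW F M hM
  refine ⟨C1 * C2, by positivity, fun X hX 𝒟 h𝒟 => ?_⟩
  have h3 := (h2 X hX 𝒟 h𝒟).1
  rw [div_le_iff₀ (by linarith)] at h3
  calc ∑ D ∈ 𝒟, (M : ℝ) ^ wt D * s D ^ k ≤ C1 * X * (1 + Real.log X) ^ (M - 1) :=
        h1 X hX 𝒟 h𝒟.toTwists
    _ = C1 * (X * (1 + Real.log X) ^ (M - 1)) := by ring
    _ ≤ C1 * (mass M 𝒟 * C2) := mul_le_mul_of_nonneg_left h3 hC1.le
    _ = _ := by ring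

/-- all conclusions -/
theorem allS (hCNT : S_CNT) (hLOWW : S_LOWW) (h0 : ∀ D, D ≠ 0 → 0 ≤ s D) (hs : MomS s) {M : ℕ} (hM : 1 ≤ M)
    (k : ℕ) : ∃ C : ℝ, 0 < C ∧
      (∀ X : ℝ, 1 ≤ X → ∀ 𝒟 : Finset F, Twists X 𝒟 →
        (∑ D ∈ 𝒟, (M : ℝ) ^ wt D * s D ^ k ≤ C * X * (1 + Real.log X) ^ (M - 1)) ∧
        (∀ T : ℝ, 0 < T → mass M (𝒟.filter (fun D => T ≤ s D)) ≤
          C * X * (1 + Real.log X) ^ (M - 1) / T ^ k) ∧
        (𝒟.Nonempty → ∏ D ∈ 𝒟, s D ^ k ≤ (C * X / 𝒟.card) ^ 𝒟.card) ∧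
        (3 ≤ X → ∀ t : ℝ, ∑ D ∈ 𝒟.filter (fun D => t * Real.log (Real.log X) ≤ wt D), s D ^ k ≤
          C * X * Real.log X ^ ((M : ℝ) - 1 - t * Real.log M))) ∧
      ∀ X : ℝ, 1 ≤ X → ∀ 𝒟 : Finset F, AllTwists X 𝒟 →
        (∑ D ∈ 𝒟, (M : ℝ) ^ wt D * s D ^ k ≤ C * mass M 𝒟) ∧
        ∀ T : ℝ, 0 < T → mass M (𝒟.filter (fun D => T ≤ s D)) ≤ C * mass M 𝒟 / T ^ k := by
  obtain ⟨C1, hC1, h1⟩ := hs M hM k
  obtain ⟨C2, hC2, h2⟩ := lamS h0 hs hM k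
  obtain ⟨C3, hC3, h3⟩ := meanS hCNT hLOWW hs hM k
  obtain ⟨C4, hC4, h4⟩ := hs 1 le_rfl k
  obtain ⟨C, hC⟩ : ∃ C, C = max (max C1 C2) (max C3 C4) := ⟨_, rfl⟩
  have i1 : C1 ≤ C := by rw [hC]; exact (le_max_left _ _).trans (le_max_left _ _)
  have i2 : C2 ≤ C := by rw [hC]; exact (le_max_right _ _).trans (le_max_left _ _)
  have i3 : C3 ≤ C := by rw [hC]; exact (le_max_left _ _).trans (le_max_right _ _)
  have i4 : C4 ≤ C := by rw [hC]; exact (le_max_right _ _).trans (le_max_right _ _)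
  have hC0 : 0 < C := lt_of_lt_of_le hC1 i1
  refine ⟨C, hC0, fun X hX 𝒟 h𝒟 => ?_, fun X hX 𝒟 h𝒟 => ?_⟩
  · have hlX := Real.log_nonneg hX
    have j1 : ∑ D ∈ 𝒟, (M : ℝ) ^ wt D * s D ^ k ≤ C * X * (1 + Real.log X) ^ (M - 1) := by
      refine (h1 X hX 𝒟 h𝒟).trans ?_
      gcongr
    have j4 : ∑ D ∈ 𝒟, s D ^ k ≤ C * X := by
      have e := h4 X hX 𝒟 h𝒟
      simp only [Nat.cast_one, one_pow, one_mul, Nat.sub_self, pow_zero, mul_one] at e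
      exact e.trans (mul_le_mul_of_nonneg_right i4 (by linarith))
    refine ⟨j1, fun T hT => tailS (fun D hD => h0 D (h𝒟.ne D hD)) j1 hT, fun hne => ?_,
      fun hX3 t => ?_⟩
    · exact Pool.Agent.Q161.ESM.geom 𝒟 hne (fun D => s D ^ k)
        (fun D hD => pow_nonneg (h0 D (h𝒟.ne D hD)) k) j4
    · refine (h2 X hX3 𝒟 h𝒟 t).trans ?_
      have hl : 0 < Real.log X := Real.log_pos (by linarith)
      have := Real.rpow_pos_of_pos hl ((M : ℝ) - 1 - t * Real.log M)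
      gcongr
  · have j1 : ∑ D ∈ 𝒟, (M : ℝ) ^ wt D * s D ^ k ≤ C * mass M 𝒟 :=
      (h3 X hX 𝒟 h𝒟).trans (mul_le_mul_of_nonneg_right i3 (mass_nonneg M 𝒟))
    exact ⟨j1, fun T hT => tailS (fun D hD => h0 D (h𝒟.ne D hD)) j1 hT⟩

end Pool.Agent.Q161.ESB
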