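import Pool.Agent.Q161.ESB.Stm4
import Pool.Agent.Q161.ESN.Fin

/-! # Project ESB: weighted moments of the 2-Selmer groups of all quadratic twists over a number field -/

set_option autoImplicit false

namespace Pool.Agent.Q161.ESB

open Polynomial NumberField IsDedekindDomain

open scoped Classical

open Pool.Agent.Q51.EL (Abv Par)
open Pool.Agent.Q161.ESG (shF twF)
open Pool.Agent.Q161.ESF (CubF Sel2 exists_LC)
open Pool.Agent.Q161.ESN (t_vg t_sem3 t_lcg t_emb3 t_kxf t_rep t_shaf t_fin selOrder exists_den noroot_scale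
  tw_scale oddAt_mul_sq)

/-- the primes with odd valuation divide the representative -/
theorem wt_le {F : Type} [Field F] [NumberField F] {D : F} {E : 𝓞 F} {s : F} (hs : s ≠ 0)
    (hE : (E : F) = D * s ^ 2) (hE0 : E ≠ 0) : wt D ≤ om E := by
  unfold wt om
  refine Set.ncard_le_ncard (fun v hv => ?_) ?_
  · have h1 : OddAt v (E : F) := by
      rw [hE]
      exact (oddAt_mul_sq hs).2 hv
    have h2 := Pool.Agent.Q237.ESN.oddAt_dvd h1
    exact Ideal.dvd_span_singleton.1 h2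
  · have h1 := Ideal.finite_factors (I := Ideal.span {E})
      (by rwa [Ne, Ideal.zero_eq_bot, Ideal.span_singleton_eq_bot])
    refine h1.subset fun v hv => ?_
    exact Ideal.dvd_span_singleton.2 hv

/-- `1 + log (c X) ≤ (1 + log c) (1 + log X)` -/
theorem log_mul_le {c X : ℝ} (hc : 1 ≤ c) (hX : 1 ≤ X) :
    1 + Real.log (c * X) ≤ (1 + Real.log c) * (1 + Real.log X) := by
  rw [Real.log_mul (by positivity) (by positivity)]
  have h1 := Real.log_nonneg hc
  have h2 := Real.log_nonneg hX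
  nlinarith [mul_nonneg h1 h2]

section main

variable (hCNT : S_CNT)

include hCNT

/-- the joint moments of the 2-Selmer groups of all quadratic twists over a number field -/
theorem goalW (M : ℕ) (hM : 1 ≤ M) (J : Type) [Fintype J] (F : Type) [Field F] [NumberField F] (a b : J → 𝓞 F)
    (h : ∀ j, ∀ x : F, x ^ 3 + (a j : F) * x + (b j : F) ≠ 0) :
    ∃ C0 : ℝ, 0 < C0 ∧ ∀ X : ℝ, 1 ≤ X → ∀ 𝒟 : Finset F, (∀ D ∈ 𝒟, D ≠ 0 ∧ (oddNorm D : ℝ) ≤ X) →
      (∀ D ∈ 𝒟, ∀ D' ∈ 𝒟, D ≠ D' → ¬ IsSquare (D * D')) →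
      ((∑ D ∈ 𝒟, M ^ wt D * ∏ j, Nat.card (Sel2 (shF ((a j : F) * D ^ 2) ((b j : F) * D ^ 3))) : ℕ) :
        ℝ) ≤ C0 * X * (1 + Real.log X) ^ (M - 1) := by
  choose L i1 i2 i3 th hc using fun j => exists_LC F (a j) (b j) (h j)
  obtain ⟨K, k1, k2, k3, k4, hemb⟩ := t_kxf J F L
  have hE := fun j => t_emb3 F (L j) K (a j) (b j) (th j) (hc j) (hemb j)
  obtain ⟨V, v1, v2, v3, cd, hcd⟩ := t_vg J F K L
  have hsemi : Semi (K ≃ₐ[F] K) V := t_sem3 J F K L (fun j => (hE j).1) V cd hcd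
  choose B hB0 hB using fun j => t_lcg F (L j) (a j) (b j) (th j) (hc j) K (hemb j)
  obtain ⟨B1, C1, hB1, hC1, hrep⟩ := t_rep F
  obtain ⟨BB, hBB⟩ : ∃ BB, BB = (∏ j, B j) * B1 := ⟨_, rfl⟩
  have hBB0 : BB ≠ 0 := by
    rw [hBB]
    exact mul_ne_zero (Finset.prod_ne_zero_iff.2 fun j _ => hB0 j) hB1
  have hBd : ∀ j, B j ∣ BB := fun j => by
    rw [hBB]
    exact (Finset.dvd_prod_of_mem B (Finset.mem_univ j)).mul_right _
  have hB1d : B1 ∣ BB := by
    rw [hBB]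
    exact dvd_mul_left _ _
  obtain ⟨C0, hC0, hmain⟩ := hCNT M J F K L th (fun j => (hE j).2) V cd hcd hsemi BB hBB0 hM
  have hfin : ∀ (j : J) (D : F), D ≠ 0 →
      Finite (Sel2 (shF ((a j : F) * D ^ 2) ((b j : F) * D ^ 3))) := fun j D hD =>
    t_fin F (a j) (b j) (h j) D hD
  have hΦ := fun (j : J) (D : F) (hD : D ≠ 0) => t_shaf F (L j) (a j) (b j) (th j) (hc j) D hD
  let Φ : (j : J) → (D : F) → (hD : D ≠ 0) →
      Sel2 (shF ((a j : F) * D ^ 2) ((b j : F) * D ^ 3)) → L j := fun j D hD => (hΦ j D hD).choose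
  have hΦs := fun (j : J) (D : F) (hD : D ≠ 0) => (hΦ j D hD).choose_spec
  have hinj : ∀ (j : J) (D : F) (hD : D ≠ 0), Function.Injective (Φ j D hD) := by
    intro j D hD x y hxy
    apply (hΦs j D hD).2
    change IsSquare (Φ j D hD x * Φ j D hD y)
    rw [hxy]
    exact ⟨Φ j D hD y, rfl⟩
  let S : (j : J) → F → Finset (L j) := fun j D => if hD : D ≠ 0 then
    (@Finset.univ _ (@Fintype.ofFinite _ (hfin j D hD))).image (Φ j D hD) else ∅
  have hScard : ∀ (j : J) (D : F), D ≠ 0 →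
      (S j D).card = Nat.card (Sel2 (shF ((a j : F) * D ^ 2) ((b j : F) * D ^ 3))) := by
    intro j D hD
    simp only [S, dif_pos hD]
    rw [Finset.card_image_of_injective _ (hinj j D hD)]
    rw [@Nat.card_eq_fintype_card _ (@Fintype.ofFinite _ (hfin j D hD))]
    rfl
  -- the representatives
  let r : F → 𝓞 F := fun D => if hD : D ≠ 0 then (hrep D hD).choose else 0
  have hr : ∀ D : F, D ≠ 0 → ∃ s : F, s ≠ 0 ∧ (r D : F) = D * s ^ 2 ∧ SqF B1 (r D) ∧
      ((Ideal.absNorm (Ideal.span {r D}) : ℕ) : ℝ) ≤ C1 * (oddNorm D : ℝ) := by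
    intro D hD
    simp only [r, dif_pos hD]
    exact (hrep D hD).choose_spec
  have hlog : 0 ≤ Real.log (max C1 1) := Real.log_nonneg (le_max_right _ _)
  refine ⟨C0 * max C1 1 * (1 + Real.log (max C1 1)) ^ (M - 1), by positivity, fun X hX 𝒟 h𝒟 hns => ?_⟩
  have hrsq : ∀ D ∈ 𝒟, ∀ D' ∈ 𝒟, D ≠ D' → ¬ IsSquare ((r D : F) * (r D' : F)) := by
    intro D hD D' hD' hne hsq
    obtain ⟨s, hs, hDs, -⟩ := hr D (h𝒟 D hD).1
    obtain ⟨s', hs', hDs', -⟩ := hr D' (h𝒟 D' hD').1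
    obtain ⟨q, hq⟩ := hsq
    apply hns D hD D' hD' hne
    refine ⟨q / (s * s'), ?_⟩
    rw [hDs, hDs'] at hq
    field_simp
    linear_combination hq
  have hrinj : Set.InjOn r (𝒟 : Set F) := by
    intro D hD D' hD' hrr
    by_contra hne
    apply hrsq D hD D' hD' hne
    rw [hrr]
    exact ⟨_, rfl⟩
  let Fs : (j : J) → 𝓞 F → Finset (L j) := fun j E =>
    if hE : ∃ D ∈ 𝒟, r D = E then S j hE.choose else ∅
  have hFs : ∀ (j : J), ∀ D ∈ 𝒟, Fs j (r D) = S j D := by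
    intro j D hD
    have hE : ∃ D' ∈ 𝒟, r D' = r D := ⟨D, hD, rfl⟩
    have e : hE.choose = D := hrinj hE.choose_spec.1 hD hE.choose_spec.2
    simp only [Fs, dif_pos hE]
    rw [e]
  have hF := hmain Fs (by
    intro j E δ hδ
    by_cases hE : ∃ D ∈ 𝒟, r D = E
    · obtain ⟨D, hD, rfl⟩ := hE
      rw [hFs j D hD] at hδ
      have hD0 := (h𝒟 D hD).1
      simp only [S, dif_pos hD0, Finset.mem_image] at hδ
      obtain ⟨x, -, rfl⟩ := hδ
      obtain ⟨s, hs, hDs, hsq, -⟩ := hr D hD0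
      have h5 := (hΦs j D hD0).1 x
      refine ⟨h5.1, hB j BB (hBd j) hBB0 (r D) (hsq.mono hB1d) _ h5.1 fun v hv => ?_⟩
      rw [hDs]
      exact (h5.2 v hv).mul_sq hs
    · simp only [Fs, dif_neg hE] at hδ
      exact absurd hδ (Finset.notMem_empty _)) (by
    intro j E δ hδ δ' hδ' hne hsq
    by_cases hE : ∃ D ∈ 𝒟, r D = E
    · obtain ⟨D, hD, rfl⟩ := hE
      rw [hFs j D hD] at hδ hδ'
      have hD0 := (h𝒟 D hD).1
      simp only [S, dif_pos hD0, Finset.mem_image] at hδ hδ'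
      obtain ⟨x, -, rfl⟩ := hδ
      obtain ⟨y, -, rfl⟩ := hδ'
      exact hne (congrArg _ ((hΦs j D hD0).2 x y hsq))
    · simp only [Fs, dif_neg hE] at hδ
      exact absurd hδ (Finset.notMem_empty _)) (max C1 1 * X) (𝒟.image r) (by
    calc (1 : ℝ) = 1 * 1 := (one_mul 1).symm
      _ ≤ max C1 1 * X := mul_le_mul (le_max_right _ _) hX zero_le_one (by positivity)) (by
    intro E hE
    obtain ⟨D, hD, rfl⟩ := Finset.mem_image.1 hE
    obtain ⟨s, hs, hDs, hsq, hle⟩ := hr D (h𝒟 D hD).1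
    refine ⟨hsq.mono hB1d, hle.trans ?_⟩
    exact mul_le_mul (le_max_left _ _) (h𝒟 D hD).2 (Nat.cast_nonneg _) (by positivity)) (by
    intro E hE E' hE' hne
    obtain ⟨D, hD, rfl⟩ := Finset.mem_image.1 hE
    obtain ⟨D', hD', rfl⟩ := Finset.mem_image.1 hE'
    exact hrsq D hD D' hD' fun h => hne (congrArg r h))
  have hlX := Real.log_nonneg hX
  have h9 : (1 + Real.log (max C1 1 * X)) ^ (M - 1) ≤
      (1 + Real.log (max C1 1)) ^ (M - 1) * (1 + Real.log X) ^ (M - 1) := by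
    rw [← mul_pow]
    refine pow_le_pow_left₀ ?_ (log_mul_le (le_max_right _ _) hX) _
    have : 0 ≤ Real.log (max C1 1 * X) := Real.log_nonneg (by
      calc (1 : ℝ) = 1 * 1 := (one_mul 1).symm
        _ ≤ max C1 1 * X := mul_le_mul (le_max_right _ _) hX zero_le_one (by positivity))
    linarith
  have h10 : C0 * (max C1 1 * X) * (1 + Real.log (max C1 1 * X)) ^ (M - 1) ≤
      C0 * max C1 1 * (1 + Real.log (max C1 1)) ^ (M - 1) * X * (1 + Real.log X) ^ (M - 1) := by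
    have h11 : (0 : ℝ) ≤ C0 * (max C1 1 * X) := by positivity
    calc C0 * (max C1 1 * X) * (1 + Real.log (max C1 1 * X)) ^ (M - 1) ≤ C0 * (max C1 1 * X) *
          ((1 + Real.log (max C1 1)) ^ (M - 1) * (1 + Real.log X) ^ (M - 1)) :=
          mul_le_mul_of_nonneg_left h9 h11
      _ = _ := by ring
  refine le_trans ?_ (le_trans hF h10)
  rw [Nat.cast_le, Finset.sum_image hrinj]
  refine Finset.sum_le_sum fun D hD => ?_
  obtain ⟨s, hs, hDs, hsq, -⟩ := hr D (h𝒟 D hD).1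
  refine Nat.mul_le_mul (Nat.pow_le_pow_right hM (wt_le hs hDs hsq.1)) (le_of_eq ?_)
  refine Finset.prod_congr rfl fun j _ => ?_
  rw [hFs j D hD, hScard j D (h𝒟 D hD).1]

end main

end Pool.Agent.Q161.ESB
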