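import Pool.Agent.Q161.ESN.Stm1

/-!
# Project ESB (helper161), part 1: weighted moments over a number field; the sieve with `M` blocks

GOAL OF THE PROJECT.  `F` ANY number field, `E_1, .., E_r` elliptic curves over `F` without `F`-rational points of order
two.  (1) For all `k`, `M ≥ 1` there is a `C` such that for all `X ≥ 1` and every set `𝒟` of representatives `D` of different
classes of `F^*/F^*²` with `∏_{v(D) odd} N v ≤ X`: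
`∑_{D ∈ 𝒟} M^(ω(D)) ∏_i #Sel_2(E_{i,D}/F)^k ≤ C X (1 + log X)^(M - 1)`, `ω(D)` = the number of the primes `v` of `F` at which
the valuation of `D` is odd (project ESN: `M = 1`).  (2) With `M = 2^(m-1)`: for all extensions `K` of `F` with group
`(ℤ/2)^m`, ordered by the norm `N` of the product of the ramified primes, `∑_{K, N(K) ≤ X} 2^(k rank E(K)) ≤
C X (1 + log X)^(2^m - 2)`; this is the order of the number of these `K`.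

METHOD.  Each variable `z_t` of project ESN is replaced by `M` variables `z_(t,m)`, `m ∈ Fin M`, `z_t = ∏_m z_(t,m)` (the blocks; a
prime `v | D` is assigned to one of the blocks).  The local condition of project ESN for the products; if `v` divides
`z_(t,m)` it divides no other variable.  So if the variables with index `x ∈ S ⊆ ι × Fin M` are free modulo `l` the
proportion of the allowed classes is `≤ 1 - (∑_{x ∈ S} N1 x l - M N0 l)/l + A/l²`.  So only the sets `S` with more than `M`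
elements give a saving, and the chain of the steps ends when the `M` largest variables are left: these are
responsible for the factor `(1 + log X)^(M - 1)`.

THIS FILE: the abstract sieve.  It differs from `Pool/Agent/Q161/ESN/Stm1.lean` only by `M`: `Ok M` has `mer0` with `M log log Y`;
`S.card - M` instead of `S.card - 1` and the hypothesis `M ≤ S.card` instead of `S.Nonempty`; `Phi (k + 1 - M)`
instead of `Phi k`; `j + M ≤ k`; the last index is `k - M` instead of `k - 1`.  `Vc, .., S_SM` are exported from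
`Pool.Agent.Q161.ESM`, `Sy, Nx, Ex, Wt, InT` from `Pool.Agent.Q161.ESN`; `S_GS`, `S_FR`, `S_SM` are proved (see
`Pool/Agent/Q161/ESN/All.lean`).  ADAPTATION: copy the module of project ESN, `import Pool.Agent.Q161.ESB.Stm1`,
`open Pool.Agent.Q161.ESB` instead of `open Pool.Agent.Q161.ESN`, a new namespace; lemmas of the old module which do not
use `Ok` may be imported instead of copied.
-/

set_option autoImplicit false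

namespace Pool.Agent.Q161.ESB

open Finset
open Pool.Agent.Q51.EL (pr)

export Pool.Agent.Q161.ESM (Vc Vm rd frac InB S_GS S_FR vv PP Phi vs S_SM)
export Pool.Agent.Q161.ESN (Sy Nx Ex Wt InT)

section sys

variable {ι : Type} [Fintype ι] [DecidableEq ι] {n : ι → ℕ}

open Classical in
/-- the properties of the data (`Pool.Agent.Q161.ESN.Ok` with `M1` and another `mer0`) -/
structure Ok (M : ℕ) (s : Sy n) (A c κ : ℝ) : Prop where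
  M1 : 1 ≤ M
  A1 : 1 ≤ A
  c0 : 0 < c
  κ0 : 0 < κ
  B0 : s.B ≠ 0
  n1 : ∀ i, 1 ≤ n i
  unit : ∀ l : ℕ, l.Prime → ¬ l ∣ s.B → ∀ y : Vm n l, (∀ i, y i ∈ s.U l i) → y ∈ s.Om l
  cU : ∀ l : ℕ, l.Prime → ¬ l ∣ s.B → ∀ i, (((s.U l i)ᶜ.ncard : ℕ) : ℝ) * l ≤ A * (l : ℝ) ^ n i
  nm : ∀ l : ℕ, l.Prime → ¬ l ∣ s.B → ∀ (i : ι) (x : Fin (n i) → ℤ),
    (fun j => (x j : ZMod l)) ∉ s.U l i → l ∣ s.Nm i x
  nb : ∀ (i : ι) (x : Fin (n i) → ℤ) (H : ℝ), 1 ≤ H → (∀ j, |(x j : ℝ)| ≤ H) →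
    (s.Nm i x : ℝ) ≤ A * H ^ n i
  n0 : ∀ (i : ι) (x : Fin (n i) → ℤ), x ∈ s.Nc i → s.Nm i x ≠ 0
  nle : ∀ i l, l.Prime → (s.N1 i l : ℝ) ≤ A
  nle0 : ∀ l, l.Prime → (s.N0 l : ℝ) ≤ A
  dens : ∀ l : ℕ, l.Prime → ¬ l ∣ s.B → ∀ S : Finset ι, S.Nonempty → ∀ z : Vc n,
    (∀ i, i ∉ S → rd n l z i ∈ s.U l i) →
    frac n s.Om S l z ≤ 1 - ((∑ i ∈ S, (s.N1 i l : ℝ)) - s.N0 l) / l + A / (l : ℝ) ^ 2
  good : ∀ l : ℕ, l.Prime → ¬ l ∣ s.B → l ∈ s.sp → ∀ S : Finset ι, S.Nonempty → S ≠ univ →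
    ¬ s.Bad S → ∀ z : Vc n, (∀ i, i ∉ S → rd n l z i ∈ s.U l i) →
    frac n s.Om S l z ≤ 1 - ((∑ i ∈ S, (s.N1 i l : ℝ)) - s.N0 l + κ) / l + A / (l : ℝ) ^ 2
  bad : ∀ l : ℕ, l.Prime → ¬ l ∣ s.B → l ∈ s.sp → ∀ S : Finset ι, S.Nonempty → S ≠ univ → s.Bad S →
    ∀ z : Vc n, (∀ i, i ∉ S → rd n l z i ∈ s.U l i) → s.Inc S l z →
    frac n s.Om S l z ≤ 1 - ((∑ i ∈ S, (s.N1 i l : ℝ)) - s.N0 l + κ) / l + A / (l : ℝ) ^ 2
  mer : ∀ (i : ι) (Y : ℝ), 3 ≤ Y →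
    |∑ l ∈ pr Y, (s.N1 i l : ℝ) / l - Real.log (Real.log Y)| ≤ A
  mer0 : ∀ Y : ℝ, 3 ≤ Y → |∑ l ∈ pr Y, (s.N0 l : ℝ) / l - M * Real.log (Real.log Y)| ≤ A
  mes : ∀ Y : ℝ, 3 ≤ Y →
    |∑ l ∈ (pr Y).filter (fun l => l ∈ s.sp), (1 : ℝ) / l - c * Real.log (Real.log Y)| ≤ A

end sys

/-- JOB RB. The product of the densities over the primes between `Y1^(1/4)` and `Y2^(1/4)`.
Proof: adapt `Pool/Agent/Q121/ESN/RB.lean`; `s = ∑_{i ∈ S} N1 i l - N0 l`, `∑ s/l` over the range is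
`≥ (#S - M)(log log Y2 - log log Y1) - C` (`Ok.mer`, `Ok.mer0`); `M ≤ #S`. -/
def S_RB : Prop := ∀ (M : ℕ) (ι : Type) [Fintype ι] [DecidableEq ι] (n : ι → ℕ) (s : Sy n)
  (A c κ : ℝ), Ok M s A c κ → ∃ C : ℝ, 0 < C ∧ ∀ (S : Finset ι) (z : Vc n) (Y1 Y2 : ℝ), M ≤ S.card →
    1 ≤ Y1 → Y1 ≤ Y2 →
    (∀ i, i ∉ S → (∀ j, |(z i j : ℝ)| ≤ Y1) ∧ s.Nm i (z i) ≠ 0) →
    ∏ l ∈ PP s.B Y2 \ PP s.B Y1, frac n s.Om S l z ≤ C * (vv Y1 / vv Y2) ^ (S.card - M) ∧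
    (S ≠ univ → ¬ s.Bad S → ∏ l ∈ PP s.B Y2 \ PP s.B Y1, frac n s.Om S l z ≤
      C * (vv Y1 / vv Y2) ^ (S.card - M) * (vv Y1 / vv Y2) ^ (c * κ))

/-- JOB RBX. The same for bad `S` and values which are not exceptional (adapt `Pool/Agent/Q182/ESN/RBX.lean`). -/
def S_RBX : Prop := ∀ (M : ℕ) (ι : Type) [Fintype ι] [DecidableEq ι] (n : ι → ℕ) (s : Sy n)
  (A c κ : ℝ), Ok M s A c κ → ∀ b C0 : ℝ, 0 < b → ∃ b' C : ℝ, 0 < b' ∧ b' ≤ 1 ∧ 0 < C ∧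
  ∀ (S : Finset ι) (x : Vc n) (Y1 Y2 : ℝ), M ≤ S.card → S ≠ univ → s.Bad S → 16 ≤ Y1 → Y1 ≤ Y2 →
    (∀ i, i ∉ S → (∀ j, |(x i j : ℝ)| ≤ Y1) ∧ s.Nm i (x i) ≠ 0) → Nx s S b C0 Y1 x →
    ∏ l ∈ PP s.B Y2 \ PP s.B Y1, frac n s.Om S l x ≤
      C * (vv Y1 / vv Y2) ^ (S.card - M) * ((vv Y1 / vv Y2) ^ b' + vv Y1 ^ (-b'))

/-- JOB ST. One step of the recursion (from `S_FR`, `S_RB`, `S_RBX`; adapt `Pool/Agent/Q195/ESN/{STA, ST}.lean`). -/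
def S_ST : Prop := ∀ (M : ℕ) (ι : Type) [Fintype ι] [DecidableEq ι] (n : ι → ℕ) (s : Sy n)
  (A c κ : ℝ), Ok M s A c κ → Ex s → ∀ A1 A0 : ℝ, ∃ b C : ℝ, 0 < b ∧ b ≤ 1 ∧ 0 < C ∧
  ∀ (S S' : Finset ι) (H : ι → ℝ) (Y Y1 Y2 : ℝ) (z : Vc n) (X : Finset (Vc n)), S' ⊆ S →
    M ≤ S'.card → 1 ≤ Y → Y ≤ Y1 → Y1 ≤ Y2 → vv Y1 ≤ A1 * vv Y →
    (∀ i ∈ S \ S', Y ≤ H i ∧ H i ≤ Y1) → (∃ i ∈ S \ S', H i = Y1) →
    ((∏ i ∈ univ \ S, s.Nm i (z i) : ℕ) : ℝ) ^ 2 ≤ Y →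
    (∀ i, i ∉ S → (∀ j, |(z i j : ℝ)| ≤ Y) ∧ s.Nm i (z i) ≠ 0) →
    (∀ x ∈ X, (∀ i ∈ S \ S', x i ∈ s.Nc i ∧ ∀ j, |(x i j : ℝ)| ≤ H i) ∧ ∀ i, i ∉ S \ S' → x i = z i) →
    ∑ x ∈ X, Wt s S' Y2 x ≤ C * (∏ i ∈ S \ S', H i ^ n i) * (vv Y / vv Y2) ^ (S'.card - M) *
      (((vv Y / vv Y2) ^ b + vv Y ^ (-b)) * Wt s S Y z + vv Y ^ (-A0))

/-- JOB CH. The chain of the steps, for the indices `j ≤ k - M` (from `S_ST`, `S_RB`; adapt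
`Pool/Agent/Q150/ESN/{ChA, Ch}.lean`).  `Phi (k + 1 - M) (j + 1) = Phi (k + 1 - M) j * (v_j/v_(j+1))^(k - M - 1 - j) * (..)` and
`#S_(j+1) - M = k - (j + 1) - M`. -/
def S_CH : Prop := ∀ (M : ℕ) (ι : Type) [Fintype ι] [DecidableEq ι] (n : ι → ℕ) (s : Sy n)
  (A c κ : ℝ), Ok M s A c κ → Ex s → ∃ A1 b C : ℝ, 1 ≤ A1 ∧ 0 < b ∧ b ≤ 1 ∧ 0 < C ∧
  ∀ (k : ℕ) (e : ι ≃ Fin k) (H : ι → ℝ), (∀ i, 1 ≤ H i) → (∀ i i', e i ≤ e i' → H i ≤ H i') →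
  ∀ (j : ℕ) (hj : j < k), j + M ≤ k → (j = 0 ∨ A1 * vs e H (j - 1) ≤ vs e H j) →
  ∀ X : Finset (Vc n),
    (∀ x ∈ X, (∀ i, (e i : ℕ) < j → x i ∈ s.Nc i ∧ ∀ j', |(x i j' : ℝ)| ≤ H i) ∧
      ∀ i, j ≤ (e i : ℕ) → x i = 0) →
    ∑ x ∈ X, Wt s (univ.filter (fun i => j ≤ (e i : ℕ))) (H (e.symm ⟨j, hj⟩)) x ≤
      C * (∏ i ∈ univ.filter (fun i => (e i : ℕ) < j), H i ^ n i) * Phi (k + 1 - M) b (vs e H) j

/-- JOB BX. The number of the vectors in a box (from `S_CH`, `S_GS`; adapt `Pool/Agent/Q150/ESN/Bx.lean`).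
`j` = the largest index `≤ k - M` which is `0` or satisfies `A1 v_(j-1) ≤ v_j`. -/
def S_BX : Prop := ∀ (M : ℕ) (ι : Type) [Fintype ι] [DecidableEq ι] (n : ι → ℕ) (s : Sy n)
  (A c κ : ℝ), Ok M s A c κ → Ex s → ∃ b C : ℝ, 0 < b ∧ b ≤ 1 ∧ 0 < C ∧
  ∀ (T : Set (Vc n)), InT s T → ∀ (k : ℕ) (e : ι ≃ Fin k) (H : ι → ℝ), M ≤ k → (∀ i, 1 ≤ H i) →
    (∀ i i', e i ≤ e i' → H i ≤ H i') →
    {x ∈ T | ∀ i j, |(x i j : ℝ)| ≤ H i}.Finite ∧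
    (({x ∈ T | ∀ i j, |(x i j : ℝ)| ≤ H i}.ncard : ℕ) : ℝ) ≤
      C * (∏ i, H i ^ n i) * Phi (k + 1 - M) b (vs e H) (k - M)

/-- JOB SMM. The sum over the boxes.
Proof (from `S_SM`).  Fix the `M - 1` largest variables `w_j`, `j > k - M`: at most `(r + 1)^(M - 1)` possibilities.  The other
`k + 1 - M` ones are monotone with `∑ m_j w_j = r'` for a certain `r' ≤ r`, and `Phi (k + 1 - M) b v (k - M)` depends only on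
`v_0, .., v_(k-M)`; so the sum over them is bounded by `S_SM` (with `k + 1 - M` instead of `k`, `m` restricted). -/
def S_SMM : Prop := ∀ (M k : ℕ) (m : Fin k → ℕ) (b : ℝ), 1 ≤ M → M ≤ k → (∀ j, 1 ≤ m j) → 0 < b → b ≤ 1 →
  ∃ C : ℝ, 0 < C ∧ ∀ r : ℕ,
    ∑ w ∈ (Fintype.piFinset (fun _ : Fin k => range (r + 1))).filter
        (fun w => Monotone w ∧ ∑ j, m j * w j = r),
      Phi (k + 1 - M) b (fun j => if h : j < k then 1 + (w ⟨j, h⟩ : ℝ) * Real.log 2 else 1) (k - M) ≤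
        C * ((r : ℝ) + 1) ^ (M - 1)

/-- JOB AN. The number of all vectors of `T` of bounded norm (from `S_BX`, `S_SMM`; adapt
`Pool/Agent/Q241/ESN/AN.lean`; at the end `∑_{2^r ≤ X} 2^r (r + 1)^(M - 1) ≤ C X (1 + log X)^(M - 1)`). -/
def S_AN : Prop := ∀ (M : ℕ) (ι : Type) [Fintype ι] [DecidableEq ι] [Nonempty ι] (n : ι → ℕ) (s : Sy n)
  (A c κ : ℝ), Ok M s A c κ → Ex s → M ≤ Fintype.card ι →
    ∃ C : ℝ, 0 < C ∧ ∀ (T : Set (Vc n)), InT s T → ∀ X : ℝ, 1 ≤ X →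
    {x ∈ T | ∃ H : ι → ℕ, (∀ i, 1 ≤ H i) ∧ (∀ i j, |x i j| ≤ H i) ∧
      ((∏ i, H i ^ n i : ℕ) : ℝ) ≤ X}.Finite ∧
    (({x ∈ T | ∃ H : ι → ℕ, (∀ i, 1 ≤ H i) ∧ (∀ i j, |x i j| ≤ H i) ∧
      ((∏ i, H i ^ n i : ℕ) : ℝ) ≤ X}.ncard : ℕ) : ℝ) ≤ C * X * (1 + Real.log X) ^ (M - 1)

end Pool.Agent.Q161.ESB
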