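import Pool.Agent.Q161.ESB.Stm2
import Pool.Agent.Q161.ESN.Stm3
import Pool.Agent.Q161.ESN.Stm4

/-!
# Project ESB (helper161), part 3: the descent with blocks, and the weighted moments

As `Pool/Agent/Q161/ESN/Stm3.lean`; `ch : v ↦ ch v ∈ Fin M` assigns the primes `v | D` of `F` to the blocks.  All statements of
`Pool/Agent/Q161/ESN/{Stm3, Stm4}.lean` are proved and can be used (`Pool/Agent/Q161/ESN/All.lean`): `S_ZEX`, `S_NIG`, `S_NRM`,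
`S_QAG`, `S_QDG`, `S_LOCG`, ..  (these are independent of the blocks).
-/

set_option autoImplicit false

namespace Pool.Agent.Q161.ESB

open Polynomial NumberField IsDedekindDomain Finset
open Pool.Agent.Q51.EL (Abv Par)

export Pool.Agent.Q161.ESN (S_ZEX Gd1 Dat SqF VB TpG RG0 RG S_VG S_NIG S_SEM3 S_NRM S_QAG S_QDG S_LOCG
  OddAt oddNorm)

/-- the number of the primes of `F` which divide `D` -/
noncomputable def om {F : Type} [Field F] [NumberField F] (D : 𝓞 F) : ℕ :=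
  {v : HeightOneSpectrum (𝓞 F) | D ∈ v.asIdeal}.ncard

/-- JOB REL. From the `δ_c` and `ch` to `z` (adapt `Pool/Agent/Q124/ESN/RELG.lean`, `S_RELG`; from `S_NRM`, `S_ZEX`, `S_QAG`,
`S_QDG`, `S_FRX`).
Proof.  `R` = the set of the primes `v` of `F` with `D ∈ v`, `v ∤ B`, `τ w` = the type of `w`; `S_ZEX` for `R_m = {v ∈ R | ch v = m}` and the
same `τ` gives `z m`, `m ∈ Fin M`.  The product `Z t = ∏_m z m t` has the valuations of `RG0.typ` (the `R_m` are disjoint with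
union `R`).  The norm: the product of the `M` bounds of `S_ZEX` (`C^M`).  Last part: by `S_ZEX` `z m t ∈ w` only if `w` lies above
some `v' ∈ R_m`; as `w` lies above only one prime of `F`, `v' = v`. -/
def S_REL : Prop := ∀ (M : ℕ) (C F K : Type) [Fintype C] [Field F] [NumberField F] [Field K]
  [NumberField K] [Algebra F K] [IsGalois ℚ K] (L : C → Type) [∀ c, Field (L c)]
  [∀ c, NumberField (L c)] [∀ c, Algebra F (L c)] (th : (c : C) → 𝓞 (L c)), (∀ c, Dat F K (th c)) →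
  ∀ (V : Type) [AddCommGroup V] [Fintype V] [DistribMulAction (K ≃ₐ[F] K) V]
  (cd : V →+ ((c : C) → (L c →ₐ[F] K) → ZMod 2)), VB cd →
  ∀ (ι : Type) [Fintype ι] (Lf : ι → Type)
  [∀ i, Field (Lf i)] [∀ i, NumberField (Lf i)] (em : (i : ι) → Lf i →+* K) (rp : ι → V),
  Rp F Lf em rp → ∀ B1 : ℕ, B1 ≠ 0 →
  ∃ (B : ℕ) (C0 K0 : ℝ) (Qm : Finset F) (Qa : Finset ((c : C) → L c)),
    B1 ∣ B ∧ B ≠ 0 ∧ 0 < C0 ∧ ∀ (D : 𝓞 F) (δ : (c : C) → L c)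
      (ch : HeightOneSpectrum (𝓞 F) → Fin M), SqF B1 D → (∀ c, δ c ≠ 0) →
    (∀ c, Gd1 F K (th c) B1 D (δ c)) →
    ∃ μ ∈ Qm, ∃ a ∈ Qa, ∃ (α : (c : C) → 𝓞 (L c)) (z : Fin M → V → 𝓞 K),
      RG th cd B μ a D α (fun t => ∏ m, z m t) ∧
      (∀ m, Eqv F (z m) ∧
        ∀ i, ∃ β : 𝓞 (Lf i), em i (β : Lf i) = (z m (rp i) : K) ∧ Nice K0 β) ∧
      (∃ N : 𝓞 F, ∏ m, ∏ t, z m t = iO F K N ∧ ((Ideal.absNorm (Ideal.span {N}) : ℕ) : ℝ) ≤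
        C0 * ((Ideal.absNorm (Ideal.span {D}) : ℕ) : ℝ)) ∧
      (∀ c, ∃ η : L c, η ≠ 0 ∧ (α c : L c) = δ c * η ^ 2) ∧
      ∀ l : ℕ, l.Prime → ¬ l ∣ B → ∀ w : HeightOneSpectrum (𝓞 K), Abv w l →
        ∀ v : HeightOneSpectrum (𝓞 F), Ov w v → ∀ m t, z m t ∈ w.asIdeal →
          D ∈ v.asIdeal ∧ ch v = m

/-- JOB CNT. The weighted count (adapt `Pool/Agent/Q124/ESN/CNTG.lean`, `S_CNTG`; from `S_NIG`, `S_RPX`, `S_REL`, `S_LOCG`,
`S_MN`).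
Proof.  `M0` instead of `M` if `M = 0`: then only the `D` with `om D = 0` count; or exclude it: `1 ≤ M`.  Count the triples
`(D, (δ_c), ch)`, where `ch` is a map from the set of the primes `v ∋ D`, `v ∤ B`, to `Fin M` (extended by `0`): for given `D` there are
`M^#{v ∋ D, v ∤ B} ≥ M^(om D) M^(-#{v ∋ B})` maps.  The triple is determined by `(μ, a, z)`: `Z t = ∏_m z m t` determines `D` and the
`δ_c` as in `S_CNTG`; and for `v ∋ D`, `v ∤ B`, `w` above `v`, there is a `t` with `Z t ∈ w` (the type of `w`: `RG0.typ`, `Gd1.odd`), so some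
`z m t ∈ w`, `ch v = m`.  The set `T` of the `z` for given `(μ, a)` satisfies `LocB`: the products `Z` satisfy `Loc` by `S_LOCG`; `z m t ∈ w`,
`z m' t ∈ w` implies `m = ch v = m'`; `∏_s ∏_j z j s * z' j s = ∏_s Z s * Z' s`.  `(1 + log (C X))^(M-1) ≤ C' (1 + log X)^(M-1)`. -/
def S_CNT : Prop := ∀ (M : ℕ) (C F K : Type) [Fintype C] [Field F] [NumberField F] [Field K]
  [NumberField K] [Algebra F K] [IsGalois ℚ K] (L : C → Type) [∀ c, Field (L c)]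
  [∀ c, NumberField (L c)] [∀ c, Algebra F (L c)] (th : (c : C) → 𝓞 (L c)), (∀ c, Dat F K (th c)) →
  ∀ (V : Type) [AddCommGroup V] [Fintype V] [DistribMulAction (K ≃ₐ[F] K) V]
  (cd : V →+ ((c : C) → (L c →ₐ[F] K) → ZMod 2)), VB cd → Semi (K ≃ₐ[F] K) V →
  ∀ B : ℕ, B ≠ 0 → 1 ≤ M → ∃ C0 : ℝ, 0 < C0 ∧ ∀ Fs : (c : C) → 𝓞 F → Finset (L c),
    (∀ (c : C) (D : 𝓞 F), ∀ δ ∈ Fs c D, δ ≠ 0 ∧ Gd1 F K (th c) B D δ) →
    (∀ (c : C) (D : 𝓞 F), ∀ δ ∈ Fs c D, ∀ δ' ∈ Fs c D, δ ≠ δ' → ¬ IsSquare (δ * δ')) →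
    ∀ (X : ℝ) (𝒟 : Finset (𝓞 F)), 1 ≤ X →
      (∀ D ∈ 𝒟, SqF B D ∧ ((Ideal.absNorm (Ideal.span {D}) : ℕ) : ℝ) ≤ X) →
      (∀ D ∈ 𝒟, ∀ D' ∈ 𝒟, D ≠ D' → ¬ IsSquare ((D : F) * (D' : F))) →
      ((∑ D ∈ 𝒟, M ^ om D * ∏ c, (Fs c D).card : ℕ) : ℝ) ≤ C0 * X * (1 + Real.log X) ^ (M - 1)

end Pool.Agent.Q161.ESB
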