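import Pool.Agent.Q161.ESB.Stm3
import Pool.Agent.Q161.ESN.Cor

/-!
# Project ESB (helper161), part 4: all elementary abelian 2-extensions `K` of `F` of degree `2^m`

`K` corresponds to a subgroup of order `2^m` of `F^*/F^*²`, given by a basis `b : Fin m → F`.
-/

set_option autoImplicit false

namespace Pool.Agent.Q161.ESB

open NumberField IsDedekindDomain Finset

export Pool.Agent.Q161.ESN (Twists)

section F

variable {F : Type} [Field F] [NumberField F]

/-- the number of the primes at which the valuation of `D` is odd -/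
noncomputable def wt (D : F) : ℕ := {v : HeightOneSpectrum (𝓞 F) | OddAt v D}.ncard

/-- the weighted means of `f` are of the expected order -/
def Wtd (f : F → ℝ) : Prop := ∀ M : ℕ, 1 ≤ M → ∃ C : ℝ, 0 < C ∧ ∀ X : ℝ, 1 ≤ X →
  ∀ 𝒟 : Finset F, Twists X 𝒟 →
    ∑ D ∈ 𝒟, (M : ℝ) ^ wt D * f D ≤ C * X * (1 + Real.log X) ^ (M - 1)

/-- `b` is a basis of a subgroup of order `2^m` of `F^*/F^*²` -/
structure Indep {m : ℕ} (b : Fin m → F) : Prop where
  ne : ∀ j, b j ≠ 0
  ind : ∀ S : Finset (Fin m), S.Nonempty → ¬ IsSquare (∏ j ∈ S, b j)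

/-- the subgroup of `b` is contained in the one of `b'` -/
def SubSp {m : ℕ} (b b' : Fin m → F) : Prop :=
  ∀ j, ∃ S : Finset (Fin m), IsSquare (b j * ∏ i ∈ S, b' i)

/-- the norm of the product of the primes at which some element of the subgroup of `b` has an odd valuation is at most
`X` -/
def SupLe {m : ℕ} (b : Fin m → F) (X : ℝ) : Prop :=
  ∀ A : Finset (HeightOneSpectrum (𝓞 F)), (∀ v ∈ A, ∃ j, OddAt v (b j)) →
    ∏ v ∈ A, ((Ideal.absNorm v.asIdeal : ℕ) : ℝ) ≤ X

end F

section K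

variable (F K : Type) [Field F] [NumberField F] [Field K] [NumberField K] [Algebra F K]

/-- the prime `v` of `F` ramifies in `K` -/
def Ram (v : HeightOneSpectrum (𝓞 F)) : Prop :=
  ∃ w : HeightOneSpectrum (𝓞 K), v.asIdeal.map (algebraMap (𝓞 F) (𝓞 K)) ≤ w.asIdeal ^ 2

/-- the norm of the product of the primes of `F` which ramify in `K` is at most `X` -/
def RamLe (X : ℝ) : Prop :=
  ∀ A : Finset (HeightOneSpectrum (𝓞 F)), (∀ v ∈ A, Ram F K v) →
    ∏ v ∈ A, ((Ideal.absNorm v.asIdeal : ℕ) : ℝ) ≤ X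

/-- `K` is an elementary abelian 2-extension of `F` of degree `2^m` -/
structure El (m : ℕ) : Prop where
  gal : IsGalois F K
  deg : Module.finrank F K = 2 ^ m
  two : ∀ σ : K ≃ₐ[F] K, σ * σ = 1

variable {F} in
/-- `b` is a basis of the group of the classes which become squares in `K` -/
structure Bas {m : ℕ} (b : Fin m → F) : Prop where
  ind : Indep b
  sq : ∀ j, ∃ s : K, s ^ 2 = algebraMap F K (b j)
  all : ∀ (s : K) (c : F), s ≠ 0 → s ^ 2 = algebraMap F K c →
    ∃ (S : Finset (Fin m)) (t : F), c = (∏ j ∈ S, b j) * t ^ 2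

end K

/-- JOB IDL. The sum of the inverses of the norms of the squarefree ideals (products of finite sets of primes).
Proof.  `A ↦ ∏_{v ∈ A} v` is injective; by `ids_le` (`Pool/Agent/Q237/ESN/CntA.lean`) there are at most `C x` ideals of norm at most
`x`; dyadic: `∑_{N ≤ X} 1/N ≤ ∑_{2^j ≤ X} C 2^(j+1)/2^j`. -/
def S_IDL : Prop := ∀ (F : Type) [Field F] [NumberField F], ∃ C : ℝ, 0 < C ∧ ∀ X : ℝ, 1 ≤ X →
  ∀ 𝒜 : Finset (Finset (HeightOneSpectrum (𝓞 F))),
    (∀ A ∈ 𝒜, ∏ v ∈ A, ((Ideal.absNorm v.asIdeal : ℕ) : ℝ) ≤ X) →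
    ∑ A ∈ 𝒜, 1 / ∏ v ∈ A, ((Ideal.absNorm v.asIdeal : ℕ) : ℝ) ≤ C * (1 + Real.log X)

/-- JOB CLS. The number of the classes with a given odd support.
Proof: for `D, D' ∈ 𝒟` all valuations of `D D'` are even; `S_SUF` for `F` (`Pool.Agent.Q161.ESN.S_SUF`, proved, see
`Pool/Agent/Q161/ESN/All.lean`): `D D' = μ s²` with `μ` in a finite set. -/
def S_CLS : Prop := ∀ (F : Type) [Field F] [NumberField F], ∃ C : ℕ, ∀ (A : Set (HeightOneSpectrum (𝓞 F)))
  (𝒟 : Finset F), (∀ D ∈ 𝒟, D ≠ 0 ∧ ∀ v, OddAt v D ↔ v ∈ A) →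
    (∀ D ∈ 𝒟, ∀ D' ∈ 𝒟, D ≠ D' → ¬ IsSquare (D * D')) → 𝒟.card ≤ C

/-- JOB FAM. The sum over the subgroups of order `2^m`.
Proof (from `S_IDL`, `S_CLS`).  Fix `S`; `D_S(i) = ∏_{j ∈ S} b i j`.  For `i` and a nonempty `T ⊆ Fin m` let `P_i(T)` = the set of the
primes `v` with `{j | OddAt v (b i j)} = T` (finite); `OddAt v D_S(i)` iff `v ∈ P_i(T)` with `#(T ∩ S)` odd (if `S` is nonempty
there are `M = 2^(m-1)` such `T`, and `M - 1` nonempty `T` with `#(T ∩ S)` even).  The `P_i(T)`, `T ∋ j`, determine the odd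
support of `b i j`, so (`S_CLS`) its class up to `C` possibilities, and the classes of the `b i j`, `j ∈ Fin m`, determine
`i` (`SubSp`): at most `C^m` indices `i` have given `P_i(.)`.  Let `𝒟` be a set of representatives of the classes of the
`D_S(i)`.  For given `D ∈ 𝒟` and given `P(T)`, `#(T ∩ S)` even, there are at most `M^(wt D)` possibilities for the `P_i(T)` with
`#(T ∩ S)` odd (their union is the support of `D`).  So `∑_i f(D_S(i)) ≤ C^m ∑_(E) ∑_{D ∈ 𝒟, oddNorm D ≤ X/∏ N E_T} M^(wt D) f(D)`, the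
outer sum over the families `E = (E_T)`, `#(T ∩ S)` even, of finite sets of primes with `∏_T N E_T ≤ X`, and by `Wtd` it is
`≤ C' X (1 + log X)^(M-1) ∑_(E) 1/∏ N E_T ≤ C'' X (1 + log X)^(2M-2)` by `S_IDL`.  If `S` is empty: `D_S(i) = 1`, the sum is
`n f(1)`, and `n` is bounded by the case `f = 1`, any nonempty `S`. -/
def S_FAM : Prop := ∀ (F : Type) [Field F] [NumberField F] (m : ℕ), 1 ≤ m → ∀ f : F → ℝ,
  (∀ D, D ≠ 0 → 0 ≤ f D) → (∀ D s, D ≠ 0 → s ≠ 0 → f (D * s ^ 2) = f D) →
  Wtd f → Wtd (fun _ : F => (1 : ℝ)) →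
  ∃ C : ℝ, 0 < C ∧ ∀ X : ℝ, 1 ≤ X → ∀ (n : ℕ) (b : Fin n → Fin m → F), (∀ i, Indep (b i)) →
    (∀ i i', i ≠ i' → ¬ SubSp (b i) (b i')) → (∀ i, SupLe (b i) X) →
    ∑ i, ∑ S : Finset (Fin m), f (∏ j ∈ S, b i j) ≤ C * X * (1 + Real.log X) ^ (2 ^ m - 2)

/-- JOB KUM. Kummer theory.
Proof.  The classes of the `c ∈ F^*` which are squares in `K`: `c = s²` gives the character `σ ↦ σ s/s = ±1` of `Gal(K/F)`, which is
trivial iff `c` is a square in `F`; every character occurs (the fixed field of its kernel is a quadratic extension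
`F(√c)`).  `Gal(K/F)` is an elementary abelian group of order `2^m` (`ZMod 2`-vector space of dimension `m`), its
characters have a basis of `m` elements.  (Compare the proofs of `S_MQD`, `S_MQR` in `Pool/Agent/Q121/ESG`, and
`Pool/Agent/Q161/ESN/QuadA.lean` for `m = 1`.) -/
def S_KUM : Prop := ∀ (F K : Type) [Field F] [NumberField F] [Field K] [NumberField K] [Algebra F K]
  (m : ℕ), El F K m → ∃ b : Fin m → F, Bas K b

/-- JOB ISO. `K` is determined by the subgroup.
Proof.  `K` and `K'` are both splitting fields over `F` of `∏_j (X² - b' j)`: it splits in `K'` and, as `b' j` is (up to a square)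
a product of the `b i` (`SubSp b b'` and the dimensions are equal), in `K`; and the square roots generate `K` (`K'`):
an element `σ` of `Gal(K/F)` which fixes the square roots of all `b i` is trivial, since the characters given by the
`b i` are a basis of all characters (`Bas.all`; a nontrivial `σ` is not in the kernel of all characters, use the
quadratic subfields). -/
def S_ISO : Prop := ∀ (F K K' : Type) [Field F] [NumberField F] [Field K] [NumberField K]
  [Algebra F K] [Field K'] [NumberField K'] [Algebra F K'] (m : ℕ), El F K m → El F K' m →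
  ∀ b b' : Fin m → F, Bas K b → Bas K' b' → SubSp b b' → Nonempty (K ≃ₐ[F] K')

/-- JOB RMV. If `c = s²` in `K` and the valuation of `c` at `v` is odd then `v` is ramified: for any prime `w` of `K` above `v` the
valuation of `c` at `w` is `e` times the one at `v` and even, so `e` is even. -/
def S_RMV : Prop := ∀ (F K : Type) [Field F] [NumberField F] [Field K] [NumberField K] [Algebra F K]
  (v : HeightOneSpectrum (𝓞 F)) (s : K) (c : F), c ≠ 0 → s ^ 2 = algebraMap F K c → OddAt v c → Ram F K v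

end Pool.Agent.Q161.ESB
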