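import Pool.Agent.Q161.ESB.Stm4

/-!
# Project ESB (helper161), part 5: the discriminant
-/

set_option autoImplicit false

namespace Pool.Agent.Q161.ESB

open NumberField IsDedekindDomain Finset

/-- JOB DSC. The discriminant of `K` and the primes which ramify because of square roots.
Proof (generalises `exists_prime` and `oddNorm_le` in `Pool/Agent/Q161/ESN/QuadB.lean`, the case `m = 1`).  Let `v ∈ A` and `P` a
prime of `K` above `v`, `e = e(P/v)`.  The valuation of `c` at `P` is `e` times the odd valuation at `v`, and even, as `c = s²`; so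
`e ≥ 2` for all `P` above `v`.  `P^(e-1)` divides the different (Mathlib: `pow_sub_one_dvd_differentIdeal`; over `𝓞 F` or over
`ℤ`, where the ramification index is at least `e`), so `∏_{v ∈ A} ∏_{P | v} N(P)^(e(P/v)-1)` divides the norm of the different of
`𝓞 K` over `ℤ`, `= |discr K|` (`absNorm_differentIdeal`).  `∏_{P | v} N(P)^(e-1) = N(v)^(∑ f (e-1))` and
`∑_P f (e - 1) ≥ ∑_P e f/2 = [K : F]/2 = 2^(m-1)`. -/
def S_DSC : Prop := ∀ (F K : Type) [Field F] [NumberField F] [Field K] [NumberField K] [Algebra F K]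
  (m : ℕ), 1 ≤ m → Module.finrank F K = 2 ^ m → ∀ A : Finset (HeightOneSpectrum (𝓞 F)),
    (∀ v ∈ A, ∃ (s : K) (c : F), c ≠ 0 ∧ s ^ 2 = algebraMap F K c ∧ OddAt v c) →
    (∏ v ∈ A, Ideal.absNorm v.asIdeal) ^ 2 ^ (m - 1) ≤ (discr K).natAbs

end Pool.Agent.Q161.ESB
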